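import Mathlib

/-!
# Orders on subsets of a space whose order topology is the subspace topology

Basic notions and concatenation lemmas.
-/

set_option autoImplicit false

open Set Filter Topology

namespace Pool.Agent.Helper79.Galvin

variable {Y : Type*} [TopologicalSpace Y]

/-- `r` is a strict linear order on `A` whose open-interval topology is the subspace topology
of `A`. -/
structure Orders (r : Y → Y → Prop) (A : Set Y) : Prop where
  irrefl : ∀ x ∈ A, ¬ r x x
  trans : ∀ x ∈ A, ∀ y ∈ A, ∀ z ∈ A, r x y → r y z → r x z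
  total : ∀ x ∈ A, ∀ y ∈ A, x ≠ y → r x y ∨ r y x
  openL : ∀ a ∈ A, ∀ x ∈ A, r a x → ∀ᶠ y in 𝓝[A] x, r a y
  openR : ∀ a ∈ A, ∀ x ∈ A, r x a → ∀ᶠ y in 𝓝[A] x, r y a
  baseL : ∀ x ∈ A, ∀ U ∈ 𝓝[A] x, (∀ y ∈ A, r y x → y ∈ U) ∨
    ∃ a ∈ A, r a x ∧ ∀ y ∈ A, r a y → r y x → y ∈ U
  baseR : ∀ x ∈ A, ∀ U ∈ 𝓝[A] x, (∀ y ∈ A, r x y → y ∈ U) ∨
    ∃ a ∈ A, r x a ∧ ∀ y ∈ A, r x y → r y a → y ∈ U

namespace Orders

variable {r : Y → Y → Prop} {A : Set Y}

theorem asymm (h : Orders r A) {x y : Y} (hx : x ∈ A) (hy : y ∈ A) (hxy : r x y) : ¬ r y x :=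
  fun hyx => h.irrefl x hx (h.trans x hx y hy x hx hxy hyx)

/-- The reversed order. -/
theorem rev (h : Orders r A) : Orders (fun x y => r y x) A where
  irrefl := h.irrefl
  trans := fun x hx y hy z hz hxy hyz => h.trans z hz y hy x hx hyz hxy
  total := fun x hx y hy hxy => (h.total x hx y hy hxy).symm
  openL := h.openR
  openR := h.openL
  baseL := fun x hx U hU => by
    rcases h.baseR x hx U hU with h1 | ⟨a, ha, hxa, h1⟩
    · exact Or.inl h1
    · exact Or.inr ⟨a, ha, hxa, fun y hy h2 h3 => h1 y hy h3 h2⟩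
  baseR := fun x hx U hU => by
    rcases h.baseL x hx U hU with h1 | ⟨a, ha, hxa, h1⟩
    · exact Or.inl h1
    · exact Or.inr ⟨a, ha, hxa, fun y hy h2 h3 => h1 y hy h3 h2⟩

/-- Only the values of `r` on `A` matter. -/
theorem congr {s : Y → Y → Prop} (h : Orders r A) (hrs : ∀ x ∈ A, ∀ y ∈ A, (r x y ↔ s x y)) :
    Orders s A where
  irrefl := fun x hx h1 => h.irrefl x hx ((hrs x hx x hx).2 h1)
  trans := fun x hx y hy z hz hxy hyz =>
    (hrs x hx z hz).1 (h.trans x hx y hy z hz ((hrs x hx y hy).2 hxy) ((hrs y hy z hz).2 hyz))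
  total := fun x hx y hy hxy => by
    rcases h.total x hx y hy hxy with h1 | h1
    · exact Or.inl ((hrs x hx y hy).1 h1)
    · exact Or.inr ((hrs y hy x hx).1 h1)
  openL := fun a ha x hx hax => by
    filter_upwards [h.openL a ha x hx ((hrs a ha x hx).2 hax), self_mem_nhdsWithin] with y hy hyA
    exact (hrs a ha y hyA).1 hy
  openR := fun a ha x hx hax => by
    filter_upwards [h.openR a ha x hx ((hrs x hx a ha).2 hax), self_mem_nhdsWithin] with y hy hyA
    exact (hrs y hyA a ha).1 hy
  baseL := fun x hx U hU => by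
    rcases h.baseL x hx U hU with h1 | ⟨a, ha, hxa, h1⟩
    · exact Or.inl fun y hy hyx => h1 y hy ((hrs y hy x hx).2 hyx)
    · exact Or.inr ⟨a, ha, (hrs a ha x hx).1 hxa, fun y hy h2 h3 =>
        h1 y hy ((hrs a ha y hy).2 h2) ((hrs y hy x hx).2 h3)⟩
  baseR := fun x hx U hU => by
    rcases h.baseR x hx U hU with h1 | ⟨a, ha, hxa, h1⟩
    · exact Or.inl fun y hy hyx => h1 y hy ((hrs x hx y hy).2 hyx)
    · exact Or.inr ⟨a, ha, (hrs x hx a ha).1 hxa, fun y hy h2 h3 =>
        h1 y hy ((hrs x hx y hy).2 h2) ((hrs y hy a ha).2 h3)⟩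

/-- Restriction to an `r`-convex subset. -/
theorem restrict {B : Set Y} (h : Orders r A) (hBA : B ⊆ A)
    (hconv : ∀ x ∈ B, ∀ y ∈ A, ∀ z ∈ B, r x y → r y z → y ∈ B) : Orders r B where
  irrefl := fun x hx => h.irrefl x (hBA hx)
  trans := fun x hx y hy z hz => h.trans x (hBA hx) y (hBA hy) z (hBA hz)
  total := fun x hx y hy => h.total x (hBA hx) y (hBA hy)
  openL := fun a ha x hx hax =>
    (h.openL a (hBA ha) x (hBA hx) hax).filter_mono (nhdsWithin_mono x hBA)
  openR := fun a ha x hx hax =>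
    (h.openR a (hBA ha) x (hBA hx) hax).filter_mono (nhdsWithin_mono x hBA)
  baseL := fun x hx U hU => by
    have hU' : U ∪ Bᶜ ∈ 𝓝[A] x := by
      rw [mem_nhdsWithin_iff_eventually] at hU ⊢
      filter_upwards [hU] with y hy _
      by_cases hyB : y ∈ B
      · exact Or.inl (hy hyB)
      · exact Or.inr hyB
    rcases h.baseL x (hBA hx) _ hU' with h1 | ⟨a, ha, hax, h1⟩
    · exact Or.inl fun y hy hyx => (h1 y (hBA hy) hyx).resolve_right (fun h2 => h2 hy)
    · by_cases haB : a ∈ B
      · exact Or.inr ⟨a, haB, hax, fun y hy h2 h3 =>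
          (h1 y (hBA hy) h2 h3).resolve_right (fun h4 => h4 hy)⟩
      · refine Or.inl fun y hy hyx => ?_
        have hya : y ≠ a := by rintro rfl; exact haB hy
        rcases h.total y (hBA hy) a ha hya with h2 | h2
        · exact absurd (hconv y hy a ha x hx h2 hax) haB
        · exact (h1 y (hBA hy) h2 hyx).resolve_right (fun h4 => h4 hy)
  baseR := fun x hx U hU => by
    have hU' : U ∪ Bᶜ ∈ 𝓝[A] x := by
      rw [mem_nhdsWithin_iff_eventually] at hU ⊢
      filter_upwards [hU] with y hy _
      by_cases hyB : y ∈ B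
      · exact Or.inl (hy hyB)
      · exact Or.inr hyB
    rcases h.baseR x (hBA hx) _ hU' with h1 | ⟨a, ha, hax, h1⟩
    · exact Or.inl fun y hy hyx => (h1 y (hBA hy) hyx).resolve_right (fun h2 => h2 hy)
    · by_cases haB : a ∈ B
      · exact Or.inr ⟨a, haB, hax, fun y hy h2 h3 =>
          (h1 y (hBA hy) h2 h3).resolve_right (fun h4 => h4 hy)⟩
      · refine Or.inl fun y hy hyx => ?_
        have hya : a ≠ y := by rintro rfl; exact haB hy
        rcases h.total a ha y (hBA hy) hya with h2 | h2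
        · exact absurd (hconv x hx a ha y hy hax h2) haB
        · exact (h1 y (hBA hy) hyx h2).resolve_right (fun h4 => h4 hy)

end Orders

/-- The concatenation of `r` on `A` followed by `s` on `B`. -/
def cat (r : Y → Y → Prop) (A : Set Y) (s : Y → Y → Prop) (B : Set Y) (x y : Y) : Prop :=
  (x ∈ A ∧ y ∈ A ∧ r x y) ∨ (x ∈ B ∧ y ∈ B ∧ s x y) ∨ (x ∈ A ∧ y ∈ B)

section cat

variable {r s : Y → Y → Prop} {A B : Set Y}

theorem cat_left (hAB : Disjoint A B) {x y : Y} (hx : x ∈ A) (hy : y ∈ A) :
    cat r A s B x y ↔ r x y := by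
  have hxB : x ∉ B := Set.disjoint_left.1 hAB hx
  have hyB : y ∉ B := Set.disjoint_left.1 hAB hy
  simp [cat, hx, hy, hxB, hyB]

theorem cat_right (hAB : Disjoint A B) {x y : Y} (hx : x ∈ B) (hy : y ∈ B) :
    cat r A s B x y ↔ s x y := by
  have hxA : x ∉ A := Set.disjoint_right.1 hAB hx
  have hyA : y ∉ A := Set.disjoint_right.1 hAB hy
  simp [cat, hx, hy, hxA, hyA]

theorem cat_cross {x y : Y} (hx : x ∈ A) (hy : y ∈ B) : cat r A s B x y := Or.inr (Or.inr ⟨hx, hy⟩)

theorem not_cat_cross (hAB : Disjoint A B) {x y : Y} (hx : x ∈ B) (hy : y ∈ A) :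
    ¬ cat r A s B x y := by
  have hxA : x ∉ A := Set.disjoint_right.1 hAB hx
  have hyB : y ∉ B := Set.disjoint_left.1 hAB hy
  simp [cat, hxA, hyB]

/-- If `z` is not in the closure of `B` then the neighbourhoods of `z` in `A ∪ B` are those in
`A`. -/
theorem nhdsWithin_union_left {z : Y} (hz : z ∉ closure B) : 𝓝[A ∪ B] z = 𝓝[A] z := by
  rw [mem_closure_iff_nhdsWithin_neBot, not_neBot] at hz
  rw [nhdsWithin_union, hz, sup_bot_eq]

theorem nhdsWithin_union_right {z : Y} (hz : z ∉ closure A) : 𝓝[A ∪ B] z = 𝓝[B] z := by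
  rw [Set.union_comm, nhdsWithin_union_left hz]

/-- The algebraic part of concatenation. -/
theorem cat_irrefl (hr : ∀ x ∈ A, ¬ r x x) (hs : ∀ x ∈ B, ¬ s x x) (hAB : Disjoint A B) :
    ∀ x ∈ A ∪ B, ¬ cat r A s B x x := by
  rintro x (hx | hx)
  · rw [cat_left hAB hx hx]; exact hr x hx
  · rw [cat_right hAB hx hx]; exact hs x hx

theorem cat_trans (hr : Orders r A) (hs : Orders s B) (hAB : Disjoint A B) :
    ∀ x ∈ A ∪ B, ∀ y ∈ A ∪ B, ∀ z ∈ A ∪ B, cat r A s B x y → cat r A s B y z →
      cat r A s B x z := by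
  rintro x (hx | hx) y (hy | hy) z (hz | hz) hxy hyz
  · rw [cat_left hAB hx hy] at hxy
    rw [cat_left hAB hy hz] at hyz
    rw [cat_left hAB hx hz]
    exact hr.trans x hx y hy z hz hxy hyz
  · exact cat_cross hx hz
  · exact absurd hyz (not_cat_cross hAB hy hz)
  · exact cat_cross hx hz
  · exact absurd hxy (not_cat_cross hAB hx hy)
  · exact absurd hxy (not_cat_cross hAB hx hy)
  · exact absurd hyz (not_cat_cross hAB hy hz)
  · rw [cat_right hAB hx hy] at hxy
    rw [cat_right hAB hy hz] at hyz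
    rw [cat_right hAB hx hz]
    exact hs.trans x hx y hy z hz hxy hyz

theorem cat_total (hr : Orders r A) (hs : Orders s B) (hAB : Disjoint A B) :
    ∀ x ∈ A ∪ B, ∀ y ∈ A ∪ B, x ≠ y → cat r A s B x y ∨ cat r A s B y x := by
  rintro x (hx | hx) y (hy | hy) hxy
  · rw [cat_left hAB hx hy, cat_left hAB hy hx]
    exact hr.total x hx y hy hxy
  · exact Or.inl (cat_cross hx hy)
  · exact Or.inr (cat_cross hy hx)
  · rw [cat_right hAB hx hy, cat_right hAB hy hx]
    exact hs.total x hx y hy hxy

/-- **Concatenation, no end points at the junction.** -/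
theorem Orders.cat_open (hr : Orders r A) (hs : Orders s B)
    (hA : ∀ x ∈ A, x ∉ closure B) (hB : ∀ x ∈ B, x ∉ closure A)
    (hmax : ∀ m ∈ A, ∃ y ∈ A, r m y) (hmin : ∀ n ∈ B, ∃ y ∈ B, s y n) :
    Orders (cat r A s B) (A ∪ B) := by
  have hAB : Disjoint A B := Set.disjoint_left.2 fun x hx hx' => hA x hx (subset_closure hx')
  refine ⟨cat_irrefl hr.irrefl hs.irrefl hAB, cat_trans hr hs hAB, cat_total hr hs hAB,
    ?_, ?_, ?_, ?_⟩
  · rintro a (ha | ha) x (hx | hx) hax
    · rw [nhdsWithin_union_left (hA x hx)]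
      rw [cat_left hAB ha hx] at hax
      filter_upwards [hr.openL a ha x hx hax, self_mem_nhdsWithin] with y hy hyA
      exact (cat_left hAB ha hyA).2 hy
    · rw [nhdsWithin_union_right (hB x hx)]
      filter_upwards [self_mem_nhdsWithin] with y hyB
      exact cat_cross ha hyB
    · exact absurd hax (not_cat_cross hAB ha hx)
    · rw [nhdsWithin_union_right (hB x hx)]
      rw [cat_right hAB ha hx] at hax
      filter_upwards [hs.openL a ha x hx hax, self_mem_nhdsWithin] with y hy hyB
      exact (cat_right hAB ha hyB).2 hy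
  · rintro a (ha | ha) x (hx | hx) hax
    · rw [nhdsWithin_union_left (hA x hx)]
      rw [cat_left hAB hx ha] at hax
      filter_upwards [hr.openR a ha x hx hax, self_mem_nhdsWithin] with y hy hyA
      exact (cat_left hAB hyA ha).2 hy
    · exact absurd hax (not_cat_cross hAB hx ha)
    · rw [nhdsWithin_union_left (hA x hx)]
      filter_upwards [self_mem_nhdsWithin] with y hyA
      exact cat_cross hyA ha
    · rw [nhdsWithin_union_right (hB x hx)]
      rw [cat_right hAB hx ha] at hax
      filter_upwards [hs.openR a ha x hx hax, self_mem_nhdsWithin] with y hy hyB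
      exact (cat_right hAB hyB ha).2 hy
  · rintro x (hx | hx) U hU
    · rw [nhdsWithin_union_left (hA x hx)] at hU
      rcases hr.baseL x hx U hU with h1 | ⟨a, ha, hax, h1⟩
      · left
        rintro y (hy | hy) hyx
        · exact h1 y hy ((cat_left hAB hy hx).1 hyx)
        · exact absurd hyx (not_cat_cross hAB hy hx)
      · right
        refine ⟨a, Or.inl ha, (cat_left hAB ha hx).2 hax, ?_⟩
        rintro y (hy | hy) hay hyx
        · exact h1 y hy ((cat_left hAB ha hy).1 hay) ((cat_left hAB hy hx).1 hyx)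
        · exact absurd hyx (not_cat_cross hAB hy hx)
    · rw [nhdsWithin_union_right (hB x hx)] at hU
      right
      have h0 : ∃ a ∈ B, s a x ∧ ∀ y ∈ B, s a y → s y x → y ∈ U := by
        rcases hs.baseL x hx U hU with h1 | h1
        · obtain ⟨a, ha, hax⟩ := hmin x hx
          exact ⟨a, ha, hax, fun y hy _ hyx => h1 y hy hyx⟩
        · exact h1
      obtain ⟨a, ha, hax, h1⟩ := h0
      refine ⟨a, Or.inr ha, (cat_right hAB ha hx).2 hax, ?_⟩
      rintro y (hy | hy) hay hyx
      · exact absurd hay (not_cat_cross hAB ha hy)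
      · exact h1 y hy ((cat_right hAB ha hy).1 hay) ((cat_right hAB hy hx).1 hyx)
  · rintro x (hx | hx) U hU
    · rw [nhdsWithin_union_left (hA x hx)] at hU
      right
      have h0 : ∃ a ∈ A, r x a ∧ ∀ y ∈ A, r x y → r y a → y ∈ U := by
        rcases hr.baseR x hx U hU with h1 | h1
        · obtain ⟨a, ha, hax⟩ := hmax x hx
          exact ⟨a, ha, hax, fun y hy hyx _ => h1 y hy hyx⟩
        · exact h1
      obtain ⟨a, ha, hax, h1⟩ := h0
      refine ⟨a, Or.inl ha, (cat_left hAB hx ha).2 hax, ?_⟩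
      rintro y (hy | hy) hay hyx
      · exact h1 y hy ((cat_left hAB hx hy).1 hay) ((cat_left hAB hy ha).1 hyx)
      · exact absurd hyx (not_cat_cross hAB hy ha)
    · rw [nhdsWithin_union_right (hB x hx)] at hU
      rcases hs.baseR x hx U hU with h1 | ⟨a, ha, hax, h1⟩
      · left
        rintro y (hy | hy) hyx
        · exact absurd hyx (not_cat_cross hAB hx hy)
        · exact h1 y hy ((cat_right hAB hx hy).1 hyx)
      · right
        refine ⟨a, Or.inr ha, (cat_right hAB hx ha).2 hax, ?_⟩
        rintro y (hy | hy) hay hyx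
        · exact absurd hay (not_cat_cross hAB hx hy)
        · exact h1 y hy ((cat_right hAB hx hy).1 hay) ((cat_right hAB hy ha).1 hyx)

/-- **Concatenation at a first point `p` of the second set.**  The neighbourhoods of `p` in `A`
are generated by the final segments of `A`.  (If `p` is not in the closure of `A`, the hypothesis
`hbase` says that `A` has a last point.) -/
theorem Orders.cat_point (hr : Orders r A) (hs : Orders s B) {p : Y} (hp : p ∈ B)
    (hpmin : ∀ y ∈ B, y ≠ p → s p y)
    (hA : ∀ x ∈ A, x ∉ closure B) (hB : ∀ x ∈ B, x ≠ p → x ∉ closure A)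
    (hopen : ∀ a ∈ A, ∀ᶠ y in 𝓝[A] p, r a y)
    (hbase : ∀ U ∈ 𝓝[A] p, ∃ a ∈ A, ∀ y ∈ A, r a y → y ∈ U) :
    Orders (cat r A s B) (A ∪ B) := by
  have hAB : Disjoint A B := Set.disjoint_left.2 fun x hx hx' => hA x hx (subset_closure hx')
  have hnp : ∀ y ∈ B, ¬ s y p := by
    intro y hy hyp
    by_cases h : y = p
    · subst h; exact hs.irrefl y hy hyp
    · exact hs.asymm hy hp hyp (hpmin y hy h)
  refine ⟨cat_irrefl hr.irrefl hs.irrefl hAB, cat_trans hr hs hAB, cat_total hr hs hAB,
    ?_, ?_, ?_, ?_⟩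
  · rintro a (ha | ha) x (hx | hx) hax
    · rw [nhdsWithin_union_left (hA x hx)]
      rw [cat_left hAB ha hx] at hax
      filter_upwards [hr.openL a ha x hx hax, self_mem_nhdsWithin] with y hy hyA
      exact (cat_left hAB ha hyA).2 hy
    · by_cases hxp : x = p
      · subst hxp
        rw [nhdsWithin_union, Filter.eventually_sup]
        constructor
        · filter_upwards [hopen a ha, self_mem_nhdsWithin] with y hy hyA
          exact (cat_left hAB ha hyA).2 hy
        · filter_upwards [self_mem_nhdsWithin] with y hyB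
          exact cat_cross ha hyB
      · rw [nhdsWithin_union_right (hB x hx hxp)]
        filter_upwards [self_mem_nhdsWithin] with y hyB
        exact cat_cross ha hyB
    · exact absurd hax (not_cat_cross hAB ha hx)
    · rw [cat_right hAB ha hx] at hax
      have hxp : x ≠ p := by rintro rfl; exact hnp a ha hax
      rw [nhdsWithin_union_right (hB x hx hxp)]
      filter_upwards [hs.openL a ha x hx hax, self_mem_nhdsWithin] with y hy hyB
      exact (cat_right hAB ha hyB).2 hy
  · rintro a (ha | ha) x (hx | hx) hax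
    · rw [nhdsWithin_union_left (hA x hx)]
      rw [cat_left hAB hx ha] at hax
      filter_upwards [hr.openR a ha x hx hax, self_mem_nhdsWithin] with y hy hyA
      exact (cat_left hAB hyA ha).2 hy
    · exact absurd hax (not_cat_cross hAB hx ha)
    · rw [nhdsWithin_union_left (hA x hx)]
      filter_upwards [self_mem_nhdsWithin] with y hyA
      exact cat_cross hyA ha
    · rw [cat_right hAB hx ha] at hax
      rw [nhdsWithin_union, Filter.eventually_sup]
      constructor
      · filter_upwards [self_mem_nhdsWithin] with y hyA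
        exact cat_cross hyA ha
      · filter_upwards [hs.openR a ha x hx hax, self_mem_nhdsWithin] with y hy hyB
        exact (cat_right hAB hyB ha).2 hy
  · rintro x (hx | hx) U hU
    · rw [nhdsWithin_union_left (hA x hx)] at hU
      rcases hr.baseL x hx U hU with h1 | ⟨a, ha, hax, h1⟩
      · left
        rintro y (hy | hy) hyx
        · exact h1 y hy ((cat_left hAB hy hx).1 hyx)
        · exact absurd hyx (not_cat_cross hAB hy hx)
      · right
        refine ⟨a, Or.inl ha, (cat_left hAB ha hx).2 hax, ?_⟩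
        rintro y (hy | hy) hay hyx
        · exact h1 y hy ((cat_left hAB ha hy).1 hay) ((cat_left hAB hy hx).1 hyx)
        · exact absurd hyx (not_cat_cross hAB hy hx)
    · by_cases hxp : x = p
      · subst hxp
        rw [nhdsWithin_union, Filter.mem_sup] at hU
        obtain ⟨a, ha, h1⟩ := hbase U hU.1
        right
        refine ⟨a, Or.inl ha, cat_cross ha hx, ?_⟩
        rintro y (hy | hy) hay hyx
        · exact h1 y hy ((cat_left hAB ha hy).1 hay)
        · exact absurd ((cat_right hAB hy hx).1 hyx) (hnp y hy)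
      · rw [nhdsWithin_union_right (hB x hx hxp)] at hU
        right
        have h0 : ∃ a ∈ B, s a x ∧ ∀ y ∈ B, s a y → s y x → y ∈ U := by
          rcases hs.baseL x hx U hU with h1 | h1
          · exact ⟨p, hp, hpmin x hx hxp, fun y hy _ hyx => h1 y hy hyx⟩
          · exact h1
        obtain ⟨a, ha, hax, h1⟩ := h0
        refine ⟨a, Or.inr ha, (cat_right hAB ha hx).2 hax, ?_⟩
        rintro y (hy | hy) hay hyx
        · exact absurd hay (not_cat_cross hAB ha hy)
        · exact h1 y hy ((cat_right hAB ha hy).1 hay) ((cat_right hAB hy hx).1 hyx)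
  · rintro x (hx | hx) U hU
    · rw [nhdsWithin_union_left (hA x hx)] at hU
      right
      rcases hr.baseR x hx U hU with h1 | ⟨a, ha, hax, h1⟩
      · refine ⟨p, Or.inr hp, cat_cross hx hp, ?_⟩
        rintro y (hy | hy) hay hyx
        · exact h1 y hy ((cat_left hAB hx hy).1 hay)
        · exact absurd ((cat_right hAB hy hp).1 hyx) (hnp y hy)
      · refine ⟨a, Or.inl ha, (cat_left hAB hx ha).2 hax, ?_⟩
        rintro y (hy | hy) hay hyx
        · exact h1 y hy ((cat_left hAB hx hy).1 hay) ((cat_left hAB hy ha).1 hyx)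
        · exact absurd hyx (not_cat_cross hAB hy ha)
    · have hU' : U ∈ 𝓝[B] x := nhdsWithin_mono x Set.subset_union_right hU
      rcases hs.baseR x hx U hU' with h1 | ⟨a, ha, hax, h1⟩
      · left
        rintro y (hy | hy) hyx
        · exact absurd hyx (not_cat_cross hAB hx hy)
        · exact h1 y hy ((cat_right hAB hx hy).1 hyx)
      · right
        refine ⟨a, Or.inr ha, (cat_right hAB hx ha).2 hax, ?_⟩
        rintro y (hy | hy) hay hyx
        · exact absurd hay (not_cat_cross hAB hx hy)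
        · exact h1 y hy ((cat_right hAB hx hy).1 hay) ((cat_right hAB hy ha).1 hyx)

/-- **Concatenation of separated sets, last point followed by first point.** -/
theorem Orders.cat_closed (hr : Orders r A) (hs : Orders s B) {m p : Y} (hm : m ∈ A)
    (hmmax : ∀ y ∈ A, y ≠ m → r y m) (hp : p ∈ B) (hpmin : ∀ y ∈ B, y ≠ p → s p y)
    (hA : ∀ x ∈ A, x ∉ closure B) (hB : ∀ x ∈ B, x ∉ closure A) :
    Orders (cat r A s B) (A ∪ B) := by
  have hbot : 𝓝[A] p = ⊥ := by
    have h1 := hB p hp
    rwa [mem_closure_iff_nhdsWithin_neBot, not_neBot] at h1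
  refine hr.cat_point hs hp hpmin hA (fun x hx _ => hB x hx) ?_ ?_
  · intro a _
    rw [hbot]
    exact Filter.eventually_bot
  · intro U _
    refine ⟨m, hm, fun y hy hmy => ?_⟩
    exfalso
    by_cases h : y = m
    · subst h; exact hr.irrefl y hy hmy
    · exact hr.asymm hm hy hmy (hmmax y hy h)

end cat

end Pool.Agent.Helper79.Galvin
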