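import Pool.Agent.Helper79.GalvinMain

/-!
# Scattered generalized ordered spaces are orderable: conclusion
-/

set_option autoImplicit false

open Set Filter Topology

namespace Pool.Agent.Helper79.Galvin

variable {Y : Type*} [TopologicalSpace Y] [LinearOrder Y] [GOS Y]

theorem ml_A {C : Set Y} (hconv : C.OrdConnected) (hg : ∀ x ∈ C, HG (C ∩ Iic x)) : PO C := by
  obtain ⟨S, hSC, hSo, hScl, hPO, r, hr, _⟩ := (Setting.self hconv hg).main
  have h := hPO.union GOS.scat ⟨r, hr⟩ hSo (fun x hx => hScl x hx.1 hx.2)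
  rwa [Set.union_sdiff_cancel hSC] at h

theorem ml_A' {C : Set Y} (hconv : C.OrdConnected) (hg : ∀ x ∈ C, HG (C ∩ Iic x)) {c : Y}
    (hc : IsLeast C c) : PP C c := by
  have hset := Setting.self hconv hg
  obtain ⟨P, hP, hcP, hPcl, z, hz, hPz⟩ := hset.piece hc.1
  have hPconv : P.OrdConnected := by
    constructor
    intro a ha b hb y hy
    exact hP.2.1 b hb y (hconv.out (hP.1 ha) (hP.1 hb) hy) hy.2
  have hPG : G P := hg z hz P (fun y hy => ⟨hP.1 hy, hPz y hy⟩) hPconv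
  have h1 : PP P c := hPG.2.1 c ⟨hcP, fun y hy => hc.2 (hP.1 hy)⟩
  have h2 : PO (C \ P) := by
    apply ml_A
    · constructor
      rintro a ⟨ha, haP⟩ b ⟨hb, hbP⟩ y hy
      exact ⟨hconv.out ha hb hy, fun hyP => haP (hP.2.1 y hyP a ha hy.1)⟩
    · rintro x ⟨hx, _⟩
      exact (hg x hx).mono (Set.inter_subset_inter_left _ Set.sdiff_subset)
  have h := h1.union GOS.scat h2 hP.2.2 (fun x hx => hPcl x hx.1 hx.2)
  rwa [Set.union_sdiff_cancel hP.1] at h

theorem notMem_closure_singleton {x p : Y} (h : x ≠ p) : x ∉ closure ({p} : Set Y) := by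
  rw [nmc]
  rcases lt_or_gt_of_ne h with h1 | h1
  · filter_upwards [(GOS.isOpen_Iio p).mem_nhds h1] with w hw hwp
    exact absurd hwp hw.ne
  · filter_upwards [(GOS.isOpen_Ioi p).mem_nhds h1] with w hw hwp
    exact absurd hwp hw.ne'

theorem ml_B {C : Set Y} (hconv : C.OrdConnected) (hg : ∀ x ∈ C, HG (C ∩ Iic x)) {p : Y}
    (hp : ∀ c ∈ C, c < p) : PP (C ∪ {p}) p := by
  have hpC : p ∉ C := fun h => lt_irrefl p (hp p h)
  by_cases hpcl : p ∈ closure C
  swap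
  · have h := (pp_singleton p).union GOS.scat (ml_A hconv hg)
      (fun x hx => by rw [Set.mem_singleton_iff.1 hx]; exact hpcl)
      (fun x hx => notMem_closure_singleton (hp x hx).ne)
    rwa [Set.union_comm] at h
  have hset : Setting (C ∪ {p}) C := by
    refine ⟨Set.subset_union_left, ?_, hconv, ?_, hg⟩
    · rintro a (ha | ha) ha' c hc
      · exact absurd ha ha'
      · rw [Set.mem_singleton_iff.1 ha]
        exact hp c hc
    · intro x hx hx'
      refine notMem_closure_singleton (hp x hx).ne (closure_mono ?_ hx')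
      rintro w ⟨hw | hw, hwC⟩
      · exact absurd hw hwC
      · exact hw
  obtain ⟨S, hSC, hSo, hScl, hPO, r, hr, hcoh⟩ := hset.main
  have hpS : p ∉ S := fun h => hpC (hSC h)
  have hpclS : p ∉ closure S := hScl p (Or.inr rfl) hpS
  have hpcl' : p ∈ closure (C \ S) := by
    have h1 : C ⊆ S ∪ (C \ S) := fun y hy => by
      by_cases hyS : y ∈ S
      · exact Or.inl hyS
      · exact Or.inr ⟨hy, hyS⟩
    have h2 := closure_mono h1 hpcl
    rw [closure_union] at h2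
    exact h2.resolve_left hpclS
  have hpA : p ∈ (C ∪ {p}) \ S := ⟨Or.inr rfl, hpS⟩
  obtain ⟨h3, h4⟩ := ext_limit hr hcoh hpA (fun h => hpC h.1) hpcl'
    (iseg_base Set.Subset.rfl hpcl' (fun y hy => hp y hy.1) _)
  have hcat := hr.cat_point (orders_singleton p) rfl (fun y hy hyp => absurd hy hyp)
    (fun x hx => notMem_closure_singleton (hp x hx.1).ne)
    (fun x hx hxp => absurd hx hxp) h3 h4
  have h5 : PP (C \ S ∪ {p}) p := by
    refine ⟨Or.inr rfl, _, hcat.rev, ?_⟩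
    rintro y (hy | hy) hyp
    · exact cat_cross hy rfl
    · exact absurd hy hyp
  have h6 := h5.union GOS.scat hPO
    (by
      rintro x (hx | hx)
      · exact hScl x (Or.inl hx.1) hx.2
      · rw [Set.mem_singleton_iff.1 hx]
        exact hpclS)
    (by
      intro x hx hx'
      refine hSo x hx (closure_mono ?_ hx')
      rintro w (hw | hw)
      · exact ⟨Or.inl hw.1, hw.2⟩
      · rw [Set.mem_singleton_iff.1 hw]
        exact ⟨Or.inr rfl, hpS⟩)
  have h7 : C \ S ∪ {p} ∪ S = C ∪ {p} := by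
    rw [Set.union_right_comm, Set.union_comm (C \ S) S, Set.union_sdiff_cancel hSC]
  rwa [h7] at h6

/-! Dual versions -/

theorem ml_A_dual {C : Set Y} (hconv : C.OrdConnected) (hg : ∀ x ∈ C, HG (C ∩ Ici x)) : PO C :=
  ml_A (Y := Yᵒᵈ) (C := C) hconv.dual fun x hx => (hg x hx).dual

theorem ml_A'_dual {C : Set Y} (hconv : C.OrdConnected) (hg : ∀ x ∈ C, HG (C ∩ Ici x)) {c : Y}
    (hc : IsGreatest C c) : PP C c :=
  ml_A' (Y := Yᵒᵈ) (C := C) hconv.dual (fun x hx => (hg x hx).dual) hc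

theorem ml_B_dual {C : Set Y} (hconv : C.OrdConnected) (hg : ∀ x ∈ C, HG (C ∩ Ici x)) {p : Y}
    (hp : ∀ c ∈ C, p < c) : PP (C ∪ {p}) p :=
  ml_B (Y := Yᵒᵈ) (C := C) hconv.dual (fun x hx => (hg x hx).dual) hp

/-- Glueing at a point. -/
theorem glue' {B : Set Y} {z : Y} (h1 : PP (B ∩ Iic z) z) (h2 : PP (B ∩ Ici z) z) : PO B := by
  have h := PO.glue h1 h2
    (by
      rintro x ⟨_, hx⟩ hxz
      rw [nmc]
      filter_upwards [(GOS.isOpen_Iio z).mem_nhds (lt_of_le_of_ne hx hxz)] with w hw hw'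
      exact absurd hw'.2 (not_le.2 hw))
    (by
      rintro x ⟨_, hx⟩ hxz
      rw [nmc]
      filter_upwards [(GOS.isOpen_Ioi z).mem_nhds (lt_of_le_of_ne hx (Ne.symm hxz))] with w hw hw'
      exact absurd hw'.2 (not_le.2 hw))
  rwa [← Set.inter_union_distrib_left, Set.Iic_union_Ici, Set.inter_univ] at h

/-- Half of the extension lemma: the end point below `z`. -/
theorem least_of_cut {B : Set Y} {z a : Y} (hB : B.OrdConnected) (hz : z ∈ B)
    (h1 : ∀ B' ⊆ B, B'.OrdConnected → z ∉ B' → G B')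
    (h2 : ∀ B' ⊆ B, B'.OrdConnected → z ∈ B' → PO B') (ha : IsLeast B a) (haz : a < z) :
    PP B a := by
  obtain ⟨W, hW, hWl, haW, hzW⟩ := cut haz
  have hc1 : (B ∩ W).OrdConnected := by
    constructor
    rintro x ⟨hx, _⟩ y ⟨hy, hyW⟩ w hw
    exact ⟨hB.out hx hy hw, hWl hw.2 hyW⟩
  have hc2 : (B \ W).OrdConnected := by
    constructor
    rintro x ⟨hx, hxW⟩ y ⟨hy, _⟩ w hw
    exact ⟨hB.out hx hy hw, fun hwW => hxW (hWl hw.1 hwW)⟩
  have h3 := (h1 (B ∩ W) Set.inter_subset_left hc1 (fun h => hzW h.2)).2.1 a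
    ⟨⟨ha.1, haW⟩, fun y hy => ha.2 hy.1⟩
  have h4 := h2 (B \ W) Set.sdiff_subset hc2 ⟨hz, hzW⟩
  have h5 := h3.union GOS.scat h4
    (by
      rintro x ⟨_, hx⟩
      rw [nmc]
      filter_upwards [hW.2.mem_nhds hx] with w hw hw'
      exact hw'.2 hw)
    (by
      rintro x ⟨_, hx⟩
      rw [nmc]
      filter_upwards [hW.1.isOpen_compl.mem_nhds hx] with w hw hw'
      exact hw hw'.2)
  rwa [Set.inter_union_sdiff] at h5

theorem greatest_of_cut {B : Set Y} {z a : Y} (hB : B.OrdConnected) (hz : z ∈ B)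
    (h1 : ∀ B' ⊆ B, B'.OrdConnected → z ∉ B' → G B')
    (h2 : ∀ B' ⊆ B, B'.OrdConnected → z ∈ B' → PO B') (ha : IsGreatest B a) (haz : z < a) :
    PP B a :=
  least_of_cut (Y := Yᵒᵈ) (B := B) hB.dual hz (fun B' hB' hc hz' => (h1 B' hB' hc.dual hz').dual)
    (fun B' hB' hc hz' => h2 B' hB' hc.dual hz') ha haz

/-- **The extension lemma at a point.** -/
theorem hg_of_point {D : Set Y} {z : Y}
    (h1 : ∀ B ⊆ D, B.OrdConnected → z ∉ B → G B)
    (h2 : ∀ B ⊆ D, B.OrdConnected → z ∈ B → PP (B ∩ Iic z) z ∧ PP (B ∩ Ici z) z) : HG D := by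
  have h3 : ∀ B ⊆ D, B.OrdConnected → z ∈ B → PO B := fun B hB hc hz =>
    glue' (h2 B hB hc hz).1 (h2 B hB hc hz).2
  intro B hB hc
  by_cases hz : z ∈ B
  swap
  · exact h1 B hB hc hz
  refine ⟨h3 B hB hc hz, ?_, ?_⟩
  · intro a ha
    rcases lt_or_eq_of_le (ha.2 hz) with haz | haz
    · exact least_of_cut hc hz (fun B' hB' => h1 B' (hB'.trans hB))
        (fun B' hB' => h3 B' (hB'.trans hB)) ha haz
    · subst haz
      have h4 : B ∩ Ici a = B := Set.inter_eq_left.2 fun y hy => ha.2 hy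
      have h5 := (h2 B hB hc hz).2
      rwa [h4] at h5
  · intro a ha
    rcases lt_or_eq_of_le (ha.2 hz) with haz | haz
    · exact greatest_of_cut hc hz (fun B' hB' => h1 B' (hB'.trans hB))
        (fun B' hB' => h3 B' (hB'.trans hB)) ha haz
    · subst haz
      have h4 : B ∩ Iic z = B := Set.inter_eq_left.2 fun y hy => ha.2 hy
      have h5 := (h2 B hB hc hz).1
      rwa [h4] at h5

omit [TopologicalSpace Y] [GOS Y] in
theorem union_below {P Q : Set Y} (hP : P.OrdConnected) (hQ : Q.OrdConnected) {y : Y}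
    (hyP : y ∈ P) (hyQ : y ∈ Q) : (P ∪ Q) ∩ Iic y ⊆ P ∨ (P ∪ Q) ∩ Iic y ⊆ Q := by
  by_contra hcon
  push Not at hcon
  obtain ⟨h1, h2⟩ := hcon
  obtain ⟨a, ⟨ha, hay⟩, haP⟩ := Set.not_subset.1 h1
  obtain ⟨b, ⟨hb, hby⟩, hbQ⟩ := Set.not_subset.1 h2
  have haQ : a ∈ Q := ha.resolve_left haP
  have hbP : b ∈ P := hb.resolve_right hbQ
  rcases le_total a b with hab | hab
  · exact hbQ (hQ.out haQ hyQ ⟨hab, hby⟩)
  · exact haP (hP.out hbP hyP ⟨hab, hay⟩)

omit [TopologicalSpace Y] [GOS Y] in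
theorem union_above {P Q : Set Y} (hP : P.OrdConnected) (hQ : Q.OrdConnected) {y : Y}
    (hyP : y ∈ P) (hyQ : y ∈ Q) : (P ∪ Q) ∩ Ici y ⊆ P ∨ (P ∪ Q) ∩ Ici y ⊆ Q := by
  by_contra hcon
  push Not at hcon
  obtain ⟨h1, h2⟩ := hcon
  obtain ⟨a, ⟨ha, hay⟩, haP⟩ := Set.not_subset.1 h1
  obtain ⟨b, ⟨hb, hby⟩, hbQ⟩ := Set.not_subset.1 h2
  have haQ : a ∈ Q := ha.resolve_left haP
  have hbP : b ∈ P := hb.resolve_right hbQ
  rcases le_total a b with hab | hab
  · exact haP (hP.out hyP hbP ⟨hay, hab⟩)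
  · exact hbQ (hQ.out hyQ haQ ⟨hby, hab⟩)

omit [TopologicalSpace Y] [GOS Y] in
theorem conv_union {P Q : Set Y} (hP : P.OrdConnected) (hQ : Q.OrdConnected) {y : Y}
    (hyP : y ∈ P) (hyQ : y ∈ Q) : (P ∪ Q).OrdConnected := by
  constructor
  intro a ha b hb w hw
  rcases le_total w y with hwy | hwy
  · rcases ha with ha | ha
    · exact Or.inl (hP.out ha hyP ⟨hw.1, hwy⟩)
    · exact Or.inr (hQ.out ha hyQ ⟨hw.1, hwy⟩)
  · rcases hb with hb | hb
    · exact Or.inl (hP.out hyP hb ⟨hwy, hw.2⟩)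
    · exact Or.inr (hQ.out hyQ hb ⟨hwy, hw.2⟩)

/-- The union of two overlapping hereditarily good convex sets is hereditarily good. -/
theorem HG.union {P Q : Set Y} (hP : P.OrdConnected) (hQ : Q.OrdConnected) {y : Y}
    (hyP : y ∈ P) (hyQ : y ∈ Q) (h1 : HG P) (h2 : HG Q) : HG (P ∪ Q) := by
  have hbelow : HG ((P ∪ Q) ∩ Iic y) := by
    rcases union_below hP hQ hyP hyQ with h | h
    · exact h1.mono h
    · exact h2.mono h
  have habove : HG ((P ∪ Q) ∩ Ici y) := by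
    rcases union_above hP hQ hyP hyQ with h | h
    · exact h1.mono h
    · exact h2.mono h
  apply hg_of_point (z := y)
  · intro B hB hc hyB
    by_cases hlow : ∃ b ∈ B, b < y
    · obtain ⟨b, hb, hby⟩ := hlow
      refine hbelow B (fun w hw => ⟨hB hw, ?_⟩) hc
      by_contra hcon
      exact hyB (hc.out hb hw ⟨hby.le, (not_le.1 hcon).le⟩)
    · push Not at hlow
      exact habove B (fun w hw => ⟨hB hw, hlow w hw⟩) hc
  · intro B hB hc hyB
    constructor
    · exact (hbelow _ (Set.inter_subset_inter_left _ hB) (hc.inter ordConnected_Iic)).2.2 y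
        ⟨⟨hyB, Set.mem_Iic.2 le_rfl⟩, fun w hw => hw.2⟩
    · exact (habove _ (Set.inter_subset_inter_left _ hB) (hc.inter ordConnected_Ici)).2.1 y
        ⟨⟨hyB, Set.mem_Ici.2 le_rfl⟩, fun w hw => hw.2⟩

/-! ### Locally good convex sets are good -/

/-- `x` has a hereditarily good convex neighbourhood. -/
def LHG (x : Y) : Prop := ∃ V ∈ 𝓝 x, V.OrdConnected ∧ HG V

/-- `x` and `y` lie in a common hereditarily good convex subset of `A`. -/
def Rel (A : Set Y) (x y : Y) : Prop := ∃ P ⊆ A, P.OrdConnected ∧ x ∈ P ∧ y ∈ P ∧ HG P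

omit [GOS Y] in
theorem Rel.symm {A : Set Y} {x y : Y} (h : Rel A x y) : Rel A y x := by
  obtain ⟨P, hPA, hc, hx, hy, hg⟩ := h
  exact ⟨P, hPA, hc, hy, hx, hg⟩

theorem Rel.trans {A : Set Y} {x y z : Y} (h1 : Rel A x y) (h2 : Rel A y z) : Rel A x z := by
  obtain ⟨P, hPA, hc, hx, hy, hg⟩ := h1
  obtain ⟨Q, hQA, hc', hy', hz, hg'⟩ := h2
  exact ⟨P ∪ Q, Set.union_subset hPA hQA, conv_union hc hc' hy hy', Or.inl hx, Or.inr hz,
    hg.union hc hc' hy hy' hg'⟩

/-- The class of `x`. -/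
def cls (A : Set Y) (x : Y) : Set Y := {y | Rel A x y}

section classes

variable {A : Set Y} (hA : A.OrdConnected) (hloc : ∀ x ∈ A, LHG x)

omit [GOS Y] in
include hA hloc in
theorem rel_refl {x : Y} (hx : x ∈ A) : Rel A x x := by
  obtain ⟨V, hV, hVc, hVg⟩ := hloc x hx
  exact ⟨V ∩ A, Set.inter_subset_right, hVc.inter hA, ⟨mem_of_mem_nhds hV, hx⟩,
    ⟨mem_of_mem_nhds hV, hx⟩, hVg.mono Set.inter_subset_left⟩

omit [GOS Y] in
theorem cls_sub (x : Y) : cls A x ⊆ A := by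
  rintro y ⟨P, hPA, _, _, hy, _⟩
  exact hPA hy

include hA hloc in
/-- Classes are relatively open. -/
theorem cls_open {x y : Y} (hy : y ∈ cls A x) : ∀ᶠ w in 𝓝 y, w ∈ A → w ∈ cls A x := by
  obtain ⟨V, hV, hVc, hVg⟩ := hloc y (cls_sub x hy)
  filter_upwards [hV] with w hwV hwA
  exact Rel.trans hy ⟨V ∩ A, Set.inter_subset_right, hVc.inter hA,
    ⟨mem_of_mem_nhds hV, cls_sub x hy⟩, ⟨hwV, hwA⟩, hVg.mono Set.inter_subset_left⟩

theorem cls_conv (x : Y) : (cls A x).OrdConnected := by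
  constructor
  intro a ha b hb w hw
  obtain ⟨P, hPA, hPc, haP, hbP, hPg⟩ := Rel.trans (Rel.symm ha) hb
  exact Rel.trans ha ⟨P, hPA, hPc, haP, hPc.out haP hbP hw, hPg⟩

theorem cls_hg_Iic {x c : Y} (hc : c ∈ cls A x) :
    ∀ y ∈ cls A x ∩ Ici c, HG (cls A x ∩ Ici c ∩ Iic y) := by
  rintro y ⟨hy, hcy⟩
  obtain ⟨P, _, hPc, hcP, hyP, hPg⟩ := Rel.trans (Rel.symm hc) hy
  exact hPg.mono fun w hw => hPc.out hcP hyP ⟨hw.1.2, hw.2⟩

theorem cls_hg_Ici {x c : Y} (hc : c ∈ cls A x) :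
    ∀ y ∈ cls A x ∩ Iic c, HG (cls A x ∩ Iic c ∩ Ici y) := by
  rintro y ⟨hy, hcy⟩
  obtain ⟨P, _, hPc, hyP, hcP, hPg⟩ := Rel.trans (Rel.symm hy) hc
  exact hPg.mono fun w hw => hPc.out hyP hcP ⟨hw.2, hw.1.2⟩

theorem cls_right {x c : Y} (hc : c ∈ cls A x) : PP (cls A x ∩ Ici c) c :=
  ml_A' ((cls_conv x).inter ordConnected_Ici) (cls_hg_Iic hc)
    ⟨⟨hc, Set.mem_Ici.2 le_rfl⟩, fun _ hy => hy.2⟩

theorem cls_left {x c : Y} (hc : c ∈ cls A x) : PP (cls A x ∩ Iic c) c :=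
  ml_A'_dual ((cls_conv x).inter ordConnected_Iic) (cls_hg_Ici hc)
    ⟨⟨hc, Set.mem_Iic.2 le_rfl⟩, fun _ hy => hy.2⟩

theorem cls_po {x c : Y} (hc : c ∈ cls A x) : PO (cls A x) := glue' (cls_left hc) (cls_right hc)

/-- Saturated sets. -/
def Sat (A : Set Y) : Set (Set Y) := {S | S ⊆ A ∧ ∀ x ∈ S, cls A x ⊆ S}

include hA hloc in
theorem sat_open {S : Set Y} (hS : S ∈ Sat A) (D : Set Y) (hDA : D ⊆ A) (hSD : Disjoint S D) :
    ∀ x ∈ S, x ∉ closure D := by
  intro x hx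
  rw [nmc]
  filter_upwards [cls_open hA hloc (rel_refl hA hloc (hS.1 hx) : x ∈ cls A x)] with w hw hwD
  exact Set.disjoint_left.1 hSD (hS.2 x hx (hw (hDA hwD))) hwD

include hA hloc in
theorem sat_closed {S : Set Y} (hS : S ∈ Sat A) : ∀ x ∈ A, x ∉ S → x ∉ closure S := by
  intro x hx hxS
  rw [nmc]
  filter_upwards [cls_open hA hloc (rel_refl hA hloc hx : x ∈ cls A x)] with w hw hwS
  exact hxS (hS.2 w hwS (Rel.symm (hw (hS.1 hwS))))

/-- Saturated sets contained in `D`. -/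
def SatIn (A D : Set Y) : Set (Set Y) := {S | S ∈ Sat A ∧ S ⊆ D}

include hA hloc in
theorem sat_az {D : Set Y} (hD : D ∈ Sat A) :
    (∃ r, Orders r D ∧ Coh D (SatIn A D) r D) ∨
    ∃ S ∈ SatIn A D, S ≠ D ∧ S.Nonempty ∧ RClosed D S ∧
      (∃ r, Orders r S ∧ ∀ m ∈ S, ∃ y ∈ S, r m y) ∧
      ∀ T : Set Y, T.Nonempty → T ⊆ D \ S → S ∪ T ∈ SatIn A D → RClosed D (S ∪ T) →
        ∀ s, Orders s T → ∃ n ∈ T, ∀ y ∈ T, y ≠ n → s n y := by
  have hclosed : ∀ S ∈ SatIn A D, RClosed D S := fun S hS x hx hxS =>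
    sat_closed hA hloc hS.1 x (hD.1 hx) hxS
  apply az GOS.scat D D (SatIn A D) _ (fun _ hS => hS.2) Set.Subset.rfl
  · intro S hS
    exact sat_open hA hloc hS.1 _ (Set.sdiff_subset.trans hD.1) Set.disjoint_sdiff_right
  · intro S hS hne
    obtain ⟨x, hxD, hxS⟩ : ∃ x ∈ D, x ∉ S := by
      by_contra hcon
      push Not at hcon
      exact hne (Set.Subset.antisymm hS.2 hcon)
    have hxx : x ∈ cls A x := rel_refl hA hloc (hD.1 hxD)
    have hun : S ∪ cls A x ∈ SatIn A D := by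
      refine ⟨⟨Set.union_subset hS.1.1 (cls_sub x), ?_⟩, Set.union_subset hS.2 (hD.2 x hxD)⟩
      rintro y (hy | hy) w hw
      · exact Or.inl (hS.1.2 y hy hw)
      · exact Or.inr (Rel.trans hy hw)
    refine ⟨cls A x, ⟨x, hxx⟩, ?_, hun, hclosed _ hun, Or.inl ⟨hclosed S hS, cls_po hxx⟩⟩
    intro y hy
    exact ⟨hD.2 x hxD hy, fun hyS => hxS (hS.1.2 y hyS (Rel.symm hy))⟩
  · intro c hc _
    refine ⟨⟨Set.sUnion_subset fun S hS => (hc hS).1.1, ?_⟩, Set.sUnion_subset fun S hS =>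
      (hc hS).2⟩
    rintro x ⟨S, hS, hx⟩
    exact ((hc hS).1.2 x hx).trans (Set.subset_sUnion_of_mem hS)

include hA hloc in
theorem sat_po {D : Set Y} (hD : D ∈ Sat A) : PO D := by
  rcases sat_az hA hloc hD with ⟨r, hr, _⟩ | ⟨S, hS, hSD, hSne, hScl, ⟨r, hr, _⟩, hstuck⟩
  · exact ⟨r, hr⟩
  have hD' : D \ S ∈ Sat A := by
    refine ⟨Set.sdiff_subset.trans hD.1, ?_⟩
    rintro x ⟨hx, hxS⟩ y hy
    exact ⟨hD.2 x hx hy, fun hyS => hxS (hS.1.2 y hyS (Rel.symm hy))⟩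
  have h1 : PO (D \ S) := by
    rcases sat_az hA hloc hD' with ⟨r', hr', _⟩ | ⟨S₁, hS₁, _, hS₁ne, _, ⟨r₁, hr₁, hr₁max⟩, _⟩
    · exact ⟨r', hr'⟩
    · exfalso
      have hun : S ∪ S₁ ∈ SatIn A D := by
        refine ⟨⟨Set.union_subset hS.1.1 hS₁.1.1, ?_⟩,
          Set.union_subset hS.2 (hS₁.2.trans Set.sdiff_subset)⟩
        rintro x (hx | hx)
        · exact (hS.1.2 x hx).trans Set.subset_union_left
        · exact (hS₁.1.2 x hx).trans Set.subset_union_right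
      have hcl : RClosed D (S ∪ S₁) := fun x hx hxS =>
        sat_closed hA hloc hun.1 x (hD.1 hx) hxS
      obtain ⟨n, hn, hnmin⟩ := hstuck S₁ hS₁ne hS₁.2 hun hcl _ hr₁.rev
      obtain ⟨y, hy, hny⟩ := hr₁max n hn
      have hyn : y ≠ n := by rintro rfl; exact hr₁.irrefl y hy hny
      exact hr₁.asymm hn hy hny (hnmin y hy hyn)
  have h2 := PO.union (A := S) (B := D \ S) GOS.scat ⟨r, hr⟩ h1
    (sat_open hA hloc hS.1 _ (Set.sdiff_subset.trans hD.1) Set.disjoint_sdiff_right)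
    (fun x hx => hScl x hx.1 hx.2)
  rwa [Set.union_sdiff_cancel hS.2] at h2

theorem sat_compl_cls (x : Y) : A \ cls A x ∈ Sat A := by
  refine ⟨Set.sdiff_subset, ?_⟩
  rintro y ⟨hy, hyx⟩ w hw
  exact ⟨cls_sub y hw, fun hwx => hyx (Rel.trans hwx (Rel.symm hw))⟩

theorem sat_cls (x : Y) : cls A x ∈ Sat A :=
  ⟨cls_sub x, fun _ hy _ hw => Rel.trans hy hw⟩

include hA hloc in
/-- Locally good convex sets are good. -/
theorem good_of_local : G A := by
  have hAsat : A ∈ Sat A := ⟨Set.Subset.rfl, fun x _ => cls_sub x⟩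
  have hun : ∀ a, a ∈ A → PP (cls A a) a → PP A a := by
    intro a ha h
    have h1 := h.union GOS.scat (sat_po hA hloc (sat_compl_cls a))
      (sat_open hA hloc (sat_cls a) _ Set.sdiff_subset Set.disjoint_sdiff_right)
      (fun x hx => sat_closed hA hloc (sat_cls a) x hx.1 hx.2)
    rwa [Set.union_sdiff_cancel (cls_sub a)] at h1
  refine ⟨sat_po hA hloc hAsat, ?_, ?_⟩
  · intro a ha
    apply hun a ha.1
    have h1 := cls_right (rel_refl hA hloc ha.1 : a ∈ cls A a)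
    have h2 : cls A a ∩ Ici a = cls A a := Set.inter_eq_left.2 fun y hy => ha.2 (cls_sub a hy)
    rwa [h2] at h1
  · intro a ha
    apply hun a ha.1
    have h1 := cls_left (rel_refl hA hloc ha.1 : a ∈ cls A a)
    have h2 : cls A a ∩ Iic a = cls A a := Set.inter_eq_left.2 fun y hy => ha.2 (cls_sub a hy)
    rwa [h2] at h1

end classes

/-- Every point has a hereditarily good neighbourhood. -/
theorem lhg (x : Y) : LHG x := by
  by_contra hx
  obtain ⟨z, hz, hiso⟩ := GOS.scat (Y := Y) {x | ¬ LHG x} ⟨x, hx⟩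
  obtain ⟨V, hV, hVU, hVc⟩ := GOS.convex z _ hiso
  apply hz
  have hloc : ∀ y ∈ V, y ≠ z → LHG y := by
    intro y hy hyz
    by_contra hcon
    exact hyz (hVU hy hcon)
  have h1 : ∀ B ⊆ V, B.OrdConnected → z ∉ B → G B := by
    intro B hB hc hzB
    apply good_of_local hc
    intro y hy
    exact hloc y (hB hy) (fun h => hzB (h ▸ hy))
  refine ⟨V, hV, hVc, hg_of_point (z := z) h1 ?_⟩
  intro B hB hc hzB
  constructor
  · have h2 : PP (B ∩ Iio z ∪ {z}) z := by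
      apply ml_B (hc.inter ordConnected_Iio)
      · intro y _ B' hB' hc'
        exact h1 B' (fun w hw => hB (hB' hw).1.1) hc' (fun hz' => lt_irrefl z (hB' hz').1.2)
      · exact fun c hc => hc.2
    have h3 : B ∩ Iio z ∪ {z} = B ∩ Iic z := by
      ext w
      constructor
      · rintro (hw | hw)
        · exact ⟨hw.1, le_of_lt hw.2⟩
        · rw [Set.mem_singleton_iff.1 hw]
          exact ⟨hzB, Set.mem_Iic.2 le_rfl⟩
      · rintro ⟨hwB, hw⟩
        rcases lt_or_eq_of_le (Set.mem_Iic.1 hw) with h | h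
        · exact Or.inl ⟨hwB, h⟩
        · exact Or.inr h
    rwa [h3] at h2
  · have h2 : PP (B ∩ Ioi z ∪ {z}) z := by
      apply ml_B_dual (hc.inter ordConnected_Ioi)
      · intro y _ B' hB' hc'
        exact h1 B' (fun w hw => hB (hB' hw).1.1) hc' (fun hz' => lt_irrefl z (hB' hz').1.2)
      · exact fun c hc => hc.2
    have h3 : B ∩ Ioi z ∪ {z} = B ∩ Ici z := by
      ext w
      constructor
      · rintro (hw | hw)
        · exact ⟨hw.1, le_of_lt hw.2⟩
        · rw [Set.mem_singleton_iff.1 hw]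
          exact ⟨hzB, Set.mem_Ici.2 le_rfl⟩
      · rintro ⟨hwB, hw⟩
        rcases lt_or_eq_of_le (Set.mem_Ici.1 hw) with h | h
        · exact Or.inl ⟨hwB, h⟩
        · exact Or.inr h.symm
    rwa [h3] at h2

/-- **A scattered generalized ordered space is orderable.** -/
theorem gos_orderable : PO (Set.univ : Set Y) :=
  (good_of_local ordConnected_univ fun x _ => lhg x).1

end Pool.Agent.Helper79.Galvin
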