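import Pool.Agent.Helper79.GalvinZorn

/-!
# Scattered generalized ordered spaces are orderable
-/

set_option autoImplicit false

open Set Filter Topology

namespace Pool.Agent.Helper79.Galvin

/-- A scattered generalized ordered space. -/
class GOS (Y : Type*) [TopologicalSpace Y] [LinearOrder Y] : Prop where
  isOpen_Iio : ∀ a : Y, IsOpen (Iio a)
  isOpen_Ioi : ∀ a : Y, IsOpen (Ioi a)
  convex : ∀ x : Y, ∀ U ∈ 𝓝 x, ∃ V ∈ 𝓝 x, V ⊆ U ∧ V.OrdConnected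
  scat : Scat Y

variable {Y : Type*} [TopologicalSpace Y] [LinearOrder Y]

instance [GOS Y] : GOS Yᵒᵈ where
  isOpen_Iio := fun a => GOS.isOpen_Ioi (OrderDual.ofDual a)
  isOpen_Ioi := fun a => GOS.isOpen_Iio (OrderDual.ofDual a)
  convex := fun x U hU => by
    obtain ⟨V, hV, hVU, hc⟩ := GOS.convex (Y := Y) (OrderDual.ofDual x) U hU
    exact ⟨V, hV, hVU, hc.dual⟩
  scat := GOS.scat (Y := Y)

/-- `A` is orderable, and each end point of `A` can be made the first point. -/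
def G (A : Set Y) : Prop :=
  PO A ∧ (∀ a, IsLeast A a → PP A a) ∧ (∀ a, IsGreatest A a → PP A a)

/-- Hereditarily good: all convex subsets are good. -/
def HG (A : Set Y) : Prop := ∀ B ⊆ A, B.OrdConnected → G B

theorem HG.mono {A B : Set Y} (h : HG A) (hBA : B ⊆ A) : HG B := fun D hD hc => h D (hD.trans hBA) hc

theorem G.dual {A : Set Y} (h : G A) : G (Y := Yᵒᵈ) A := ⟨h.1, h.2.2, h.2.1⟩

theorem HG.dual {A : Set Y} (h : HG A) : HG (Y := Yᵒᵈ) A := fun B hB hc => (h B hB hc.dual).dual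

theorem G.undual {A : Set Y} (h : G (Y := Yᵒᵈ) A) : G A := ⟨h.1, h.2.2, h.2.1⟩

/-- Between two points there is a clopen cut. -/
theorem cut [GOS Y] {a z : Y} (h : a < z) :
    ∃ W : Set Y, IsClopen W ∧ IsLowerSet W ∧ a ∈ W ∧ z ∉ W := by
  obtain ⟨i, hi, hiso⟩ := GOS.scat (Y := Y) (Icc a z) ⟨a, Set.left_mem_Icc.2 h.le⟩
  by_cases hia : i = a
  · subst hia
    refine ⟨Iic i, ⟨?_, ?_⟩, isLowerSet_Iic i, Set.mem_Iic.2 le_rfl, fun h' => ?_⟩
    · rw [← isOpen_compl_iff, Set.compl_Iic]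
      exact GOS.isOpen_Ioi i
    · rw [isOpen_iff_mem_nhds]
      intro x hx
      rcases lt_or_eq_of_le (Set.mem_Iic.1 hx) with hx | hx
      · exact Filter.mem_of_superset ((GOS.isOpen_Iio i).mem_nhds hx) fun w hw => le_of_lt hw
      · subst hx
        filter_upwards [hiso, (GOS.isOpen_Iio z).mem_nhds h] with w hw hwz
        by_contra hcon
        rw [Set.mem_Iic, not_le] at hcon
        exact hcon.ne' (hw ⟨hcon.le, le_of_lt hwz⟩)
    · exact absurd (Set.mem_Iic.1 h') (not_le.2 h)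
  · have hai : a < i := lt_of_le_of_ne hi.1 (Ne.symm hia)
    refine ⟨Iio i, ⟨?_, GOS.isOpen_Iio i⟩, isLowerSet_Iio i, hai, fun h' => ?_⟩
    · rw [← isOpen_compl_iff, Set.compl_Iio, isOpen_iff_mem_nhds]
      intro x hx
      rcases lt_or_eq_of_le (Set.mem_Ici.1 hx) with hx | hx
      · exact Filter.mem_of_superset ((GOS.isOpen_Ioi i).mem_nhds hx) fun w hw => le_of_lt hw
      · subst hx
        filter_upwards [hiso, (GOS.isOpen_Ioi a).mem_nhds hai] with w hw hwz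
        by_contra hcon
        rw [Set.mem_Ici, not_le] at hcon
        exact hcon.ne (hw ⟨le_of_lt hwz, hcon.le.trans hi.2⟩)
    · exact absurd (Set.mem_Iio.1 h') (not_lt.2 hi.2)

/-- The relatively open initial segments of `C`. -/
def ISeg (A C : Set Y) : Set (Set Y) :=
  {S | S ⊆ C ∧ (∀ x ∈ S, ∀ y ∈ C, y ≤ x → y ∈ S) ∧ ROpen A S}

/-- The standing assumptions for the main lemma. -/
structure Setting (A C : Set Y) : Prop where
  sub : C ⊆ A
  above : ∀ a ∈ A, a ∉ C → ∀ c ∈ C, c < a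
  conv : C.OrdConnected
  ropen : ROpen A C
  hg : ∀ x ∈ C, HG (C ∩ Iic x)

theorem Setting.self {C : Set Y} (hconv : C.OrdConnected) (hg : ∀ x ∈ C, HG (C ∩ Iic x)) :
    Setting C C where
  sub := Set.Subset.rfl
  above := fun a ha ha' => absurd ha ha'
  conv := hconv
  ropen := fun x _ => by simp
  hg := hg

section

variable [GOS Y] {A C : Set Y}

/-- A clopen bounded piece containing a given point. -/
theorem Setting.piece (h : Setting A C) {x : Y} (hx : x ∈ C) :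
    ∃ P ∈ ISeg A C, x ∈ P ∧ RClosed A P ∧ ∃ z ∈ C, ∀ y ∈ P, y ≤ z := by
  by_cases hmax : ∀ y ∈ C, y ≤ x
  · refine ⟨C, ⟨Set.Subset.rfl, fun _ _ y hy _ => hy, h.ropen⟩, hx, ?_, x, hx, hmax⟩
    intro y hy hyC
    rw [nmc]
    filter_upwards [(GOS.isOpen_Ioi x).mem_nhds (h.above y hy hyC x hx)] with w hw hwC
    exact absurd (hmax w hwC) (not_le.2 hw)
  · push Not at hmax
    obtain ⟨z, hz, hxz⟩ := hmax
    obtain ⟨W, hW, hWl, hxW, hzW⟩ := cut hxz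
    have hbd : ∀ y ∈ W ∩ C, y ≤ z := by
      intro y hy
      by_contra hcon
      exact hzW (hWl (le_of_lt (not_le.1 hcon)) hy.1)
    refine ⟨W ∩ C, ⟨Set.inter_subset_right, ?_, ?_⟩, ⟨hxW, hx⟩, ?_, z, hz, hbd⟩
    · intro x' hx' y hy hyx
      exact ⟨hWl hyx hx'.1, hy⟩
    · intro y hy
      rw [nmc]
      have h1 := h.ropen y hy.2
      rw [nmc] at h1
      filter_upwards [h1, hW.2.mem_nhds hy.1] with w hw hwW hw'
      refine hw ⟨hw'.1, fun hwC => hw'.2 ⟨hwW, hwC⟩⟩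
    · intro y hyA hy
      rw [nmc]
      by_cases hyW : y ∈ W
      · have hyC : y ∉ C := fun hyC => hy ⟨hyW, hyC⟩
        exact absurd (hWl (h.above y hyA hyC z hz).le hyW) hzW
      · filter_upwards [hW.1.isOpen_compl.mem_nhds hyW] with w hw hw'
        exact hw hw'.1

/-- A point outside of an initial segment `S` which is a limit of `S` lies directly above `S`. -/
theorem limit_above {S : Set Y} (hS : ∀ x ∈ S, ∀ y ∈ C, y ≤ x → y ∈ S) {x : Y}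
    (hxcl : x ∈ closure S) {y : Y} (hy : y ∈ C) (hyS : y ∉ S) : x ≤ y := by
  by_contra hcon
  rw [not_le] at hcon
  rw [mem_closure_iff_frequently] at hxcl
  obtain ⟨w, hw, hwS⟩ := (hxcl.and_eventually ((GOS.isOpen_Ioi y).mem_nhds hcon)).exists
  exact hyS (hS w hw y hy (le_of_lt hwS))

theorem iseg_base {S : Set Y} (hSC : S ⊆ C) {x : Y} (hxcl : x ∈ closure S)
    (hlt : ∀ y ∈ S, y < x) (A' : Set Y) :
    ∀ U ∈ 𝓝[S] x, ∃ b ∈ S, ∀ S' ∈ ISeg A' C, b ∈ S' → ∀ y ∈ S, y ∉ S' → y ∈ U := by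
  intro U hU
  rw [mem_nhdsWithin_iff_eventually] at hU
  obtain ⟨V, hV, hVU, hVc⟩ := GOS.convex x _ hU
  rw [mem_closure_iff_frequently] at hxcl
  obtain ⟨b, hbS, hbV⟩ := (hxcl.and_eventually hV).exists
  refine ⟨b, hbS, fun S' hS' hbS' y hy hyS' => ?_⟩
  have hby : b ≤ y := by
    by_contra hcon
    exact hyS' (hS'.2.1 b hbS' y (hSC hy) (le_of_lt (not_le.1 hcon)))
  exact hVU (hVc.out hbV (mem_of_mem_nhds hV) ⟨hby, (hlt y hy).le⟩) hy

theorem Setting.ext (h : Setting A C) : ∀ S ∈ ISeg A C, S ≠ C → ∃ T : Set Y, T.Nonempty ∧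
    T ⊆ C \ S ∧ S ∪ T ∈ ISeg A C ∧ RClosed A (S ∪ T) ∧ ((RClosed A S ∧ PO T) ∨
      ∃ x, PP T x ∧ x ∈ closure S ∧ (∀ z ∈ T, z ≠ x → z ∉ closure S) ∧
        ∀ U ∈ 𝓝[S] x, ∃ b ∈ S, ∀ S' ∈ ISeg A C, b ∈ S' → ∀ y ∈ S, y ∉ S' → y ∈ U) := by
  rintro S ⟨hSC, hSi, hSo⟩ hne
  obtain ⟨x, hxC, hxS⟩ : ∃ x ∈ C, x ∉ S := by
    by_contra hcon
    push Not at hcon
    exact hne (Set.Subset.antisymm hSC hcon)
  have key : ∀ x ∈ C, x ∉ S → ∀ P ∈ ISeg A C, x ∈ P → RClosed A P → (∃ z ∈ C, ∀ y ∈ P, y ≤ z) →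
      (P \ S).Nonempty ∧ P \ S ⊆ C \ S ∧ S ∪ (P \ S) ∈ ISeg A C ∧ RClosed A (S ∪ (P \ S)) ∧
        G (P \ S) := by
    rintro x hxC hxS P hP hxP hPcl ⟨z, hz, hPz⟩
    have hSP : S ⊆ P := by
      intro y hy
      refine hP.2.1 x hxP y (hSC hy) ?_
      by_contra hcon
      exact hxS (hSi y hy x hxC (le_of_lt (not_le.1 hcon)))
    have hun : S ∪ (P \ S) = P := Set.union_sdiff_cancel hSP
    refine ⟨⟨x, hxP, hxS⟩, fun y hy => ⟨hP.1 hy.1, hy.2⟩, by rw [hun]; exact hP,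
      by rw [hun]; exact hPcl, ?_⟩
    refine h.hg z hz _ (fun y hy => ⟨hP.1 hy.1, hPz y hy.1⟩) ⟨?_⟩
    rintro a ⟨haP, haS⟩ b ⟨hbP, hbS⟩ y ⟨hay, hyb⟩
    have hyC : y ∈ C := h.conv.out (hP.1 haP) (hP.1 hbP) ⟨hay, hyb⟩
    exact ⟨hP.2.1 b hbP y hyC hyb, fun hyS => haS (hSi y hyS a (hP.1 haP) hay)⟩
  by_cases hcl : RClosed A S
  · obtain ⟨P, hP, hxP, hPcl, hz⟩ := h.piece hxC
    obtain ⟨h1, h2, h3, h4, h5⟩ := key x hxC hxS P hP hxP hPcl hz
    exact ⟨P \ S, h1, h2, h3, h4, Or.inl ⟨hcl, h5.1⟩⟩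
  · unfold RClosed at hcl
    push Not at hcl
    obtain ⟨x', hx'A, hx'S, hx'cl⟩ := hcl
    have hx'C : x' ∈ C := by
      by_contra hcon
      exact absurd (limit_above hSi hx'cl hxC hxS) (not_le.2 (h.above x' hx'A hcon x hxC))
    obtain ⟨P, hP, hxP, hPcl, hz⟩ := h.piece hx'C
    obtain ⟨h1, h2, h3, h4, h5⟩ := key x' hx'C hx'S P hP hxP hPcl hz
    have hlt : ∀ y ∈ S, y < x' := by
      intro y hy
      by_contra hcon
      exact hx'S (hSi y hy x' hx'C (not_lt.1 hcon))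
    refine ⟨P \ S, h1, h2, h3, h4, Or.inr ⟨x', h5.2.1 x' ⟨⟨hxP, hx'S⟩, ?_⟩, hx'cl, ?_, ?_⟩⟩
    · intro y hy
      exact limit_above hSi hx'cl (h2 hy).1 (h2 hy).2
    · intro z hz hzx hzcl
      have h6 : x' ≤ z := limit_above hSi hx'cl (h2 hz).1 (h2 hz).2
      have h7 : z ≤ x' := limit_above hSi hzcl hx'C hx'S
      exact hzx (le_antisymm h7 h6)
    · exact iseg_base hSC hx'cl hlt A

theorem iseg_chain (A C : Set Y) : ∀ c ⊆ ISeg A C, IsChain (· ⊆ ·) c → ⋃₀ c ∈ ISeg A C := by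
  intro c hc _
  refine ⟨Set.sUnion_subset fun S hS => (hc hS).1, ?_, ?_⟩
  · rintro x ⟨S, hS, hx⟩ y hy hyx
    exact ⟨S, hS, (hc hS).2.1 x hx y hy hyx⟩
  · rintro x ⟨S, hS, hx⟩ hx'
    refine (hc hS).2.2 x hx (closure_mono ?_ hx')
    exact Set.sdiff_subset_sdiff_right (Set.subset_sUnion_of_mem hS)

theorem Setting.az (h : Setting A C) :
    (∃ r, Orders r C ∧ Coh A (ISeg A C) r C) ∨
    ∃ S ∈ ISeg A C, S ≠ C ∧ S.Nonempty ∧ RClosed A S ∧
      (∃ r, Orders r S ∧ ∀ m ∈ S, ∃ y ∈ S, r m y) ∧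
      ∀ T : Set Y, T.Nonempty → T ⊆ C \ S → S ∪ T ∈ ISeg A C → RClosed A (S ∪ T) →
        ∀ s, Orders s T → ∃ n ∈ T, ∀ y ∈ T, y ≠ n → s n y :=
  Galvin.az GOS.scat A C (ISeg A C) (iseg_chain A C) (fun _ hS => hS.1) h.sub
    (fun _ hS => hS.2.2) h.ext

/-- **The main lemma.** -/
theorem Setting.main (h : Setting A C) :
    ∃ S ⊆ C, ROpen A S ∧ RClosed A S ∧ PO S ∧
      ∃ r, Orders r (C \ S) ∧ Coh (A \ S) (ISeg (A \ S) (C \ S)) r (C \ S) := by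
  rcases h.az with ⟨r, hr, hcoh⟩ | ⟨S, hS, hSC, hSne, hScl, ⟨r, hr, _⟩, hstuck⟩
  · refine ⟨∅, Set.empty_subset _, fun x hx => absurd hx (Set.notMem_empty x),
      fun x _ _ => by simp, po_empty, r, ?_⟩
    rw [Set.sdiff_empty, Set.sdiff_empty]
    exact ⟨hr, hcoh⟩
  · have h' : Setting (A \ S) (C \ S) := by
      refine ⟨Set.sdiff_subset_sdiff_left h.sub, ?_, ⟨?_⟩, ?_, ?_⟩
      · rintro a ⟨haA, haS⟩ ha c ⟨hc, _⟩
        exact h.above a haA (fun haC => ha ⟨haC, haS⟩) c hc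
      · rintro a ⟨ha, haS⟩ b ⟨hb, hbS⟩ y hy
        exact ⟨h.conv.out ha hb hy, fun hyS => haS (hS.2.1 y hyS a ha hy.1)⟩
      · rintro x ⟨hx, hxS⟩ hx'
        refine h.ropen x hx (closure_mono ?_ hx')
        rintro w ⟨⟨hwA, hwS⟩, hw⟩
        exact ⟨hwA, fun hwC => hw ⟨hwC, hwS⟩⟩
      · rintro x ⟨hx, _⟩
        exact (h.hg x hx).mono (Set.inter_subset_inter_left _ Set.sdiff_subset)
    refine ⟨S, hS.1, hS.2.2, hScl, ⟨r, hr⟩, ?_⟩
    rcases h'.az with h1 | ⟨S₁, hS₁, hS₁C, hS₁ne, hS₁cl, ⟨r₁, hr₁, hr₁max⟩, _⟩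
    · exact h1
    · exfalso
      have hun : S ∪ S₁ ∈ ISeg A C := by
        refine ⟨Set.union_subset hS.1 (hS₁.1.trans Set.sdiff_subset), ?_, ?_⟩
        · rintro x (hx | hx) y hy hyx
          · exact Or.inl (hS.2.1 x hx y hy hyx)
          · by_cases hyS : y ∈ S
            · exact Or.inl hyS
            · exact Or.inr (hS₁.2.1 x hx y ⟨hy, hyS⟩ hyx)
        · rintro x (hx | hx) hx'
          · refine hS.2.2 x hx (closure_mono ?_ hx')
            exact Set.sdiff_subset_sdiff_right Set.subset_union_left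
          · refine hS₁.2.2 x hx (closure_mono ?_ hx')
            rintro w ⟨hwA, hw⟩
            exact ⟨⟨hwA, fun h => hw (Or.inl h)⟩, fun h => hw (Or.inr h)⟩
      have hcl : RClosed A (S ∪ S₁) := by
        intro x hxA hx
        rw [closure_union]
        rintro (hx' | hx')
        · exact hScl x hxA (fun h => hx (Or.inl h)) hx'
        · exact hS₁cl x ⟨hxA, fun h => hx (Or.inl h)⟩ (fun h => hx (Or.inr h)) hx'
      obtain ⟨n, hn, hnmin⟩ := hstuck S₁ hS₁ne hS₁.1 hun hcl _ hr₁.rev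
      obtain ⟨y, hy, hny⟩ := hr₁max n hn
      have hyn : y ≠ n := by rintro rfl; exact hr₁.irrefl y hy hny
      exact hr₁.asymm hn hy hny (hnmin y hy hyn)

end

end Pool.Agent.Helper79.Galvin
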