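import Pool.Agent.Helper79.GalvinBasic

/-!
# Sums of two scattered orderable sets
-/

set_option autoImplicit false

open Set Filter Topology

namespace Pool.Agent.Helper79.Galvin

variable {Y : Type*} [TopologicalSpace Y]

/-- Every nonempty subset has a relatively isolated point. -/
def Scat (Y : Type*) [TopologicalSpace Y] : Prop :=
  ∀ A : Set Y, A.Nonempty → ∃ x ∈ A, ∀ᶠ z in 𝓝 x, z ∈ A → z = x

/-- `A` is orderable. -/
def PO (A : Set Y) : Prop := ∃ r, Orders r A

/-- `A` is orderable with first point `a`. -/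
def PP (A : Set Y) (a : Y) : Prop := a ∈ A ∧ ∃ r, Orders r A ∧ ∀ y ∈ A, y ≠ a → r a y

theorem PP.po {A : Set Y} {a : Y} (h : PP A a) : PO A := ⟨h.2.choose, h.2.choose_spec.1⟩

theorem nmc {x : Y} {s : Set Y} : x ∉ closure s ↔ ∀ᶠ z in 𝓝 x, z ∉ s := by
  rw [mem_closure_iff_frequently, Filter.not_frequently]

theorem orders_empty (r : Y → Y → Prop) : Orders r (∅ : Set Y) where
  irrefl := fun x hx => absurd hx (Set.notMem_empty x)
  trans := fun x hx => absurd hx (Set.notMem_empty x)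
  total := fun x hx => absurd hx (Set.notMem_empty x)
  openL := fun x hx => absurd hx (Set.notMem_empty x)
  openR := fun x hx => absurd hx (Set.notMem_empty x)
  baseL := fun x hx => absurd hx (Set.notMem_empty x)
  baseR := fun x hx => absurd hx (Set.notMem_empty x)

theorem po_empty : PO (∅ : Set Y) := ⟨fun _ _ => False, orders_empty _⟩

theorem orders_singleton (a : Y) : Orders (fun _ _ => False) ({a} : Set Y) where
  irrefl := fun _ _ h => h
  trans := fun _ _ _ _ _ _ h => h.elim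
  total := fun x hx y hy hxy => by
    rw [Set.mem_singleton_iff] at hx hy
    exact absurd (hx.trans hy.symm) hxy
  openL := fun _ _ _ _ h => h.elim
  openR := fun _ _ _ _ h => h.elim
  baseL := fun _ _ _ _ => Or.inl fun _ _ h => h.elim
  baseR := fun _ _ _ _ => Or.inl fun _ _ h => h.elim

theorem pp_singleton (a : Y) : PP ({a} : Set Y) a :=
  ⟨rfl, _, orders_singleton a, fun y hy hya => absurd hy hya⟩

section

variable {r s : Y → Y → Prop} {A B : Set Y}

/-- Splitting at an isolated point gives separated pieces. -/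
theorem Orders.split_left (h : Orders r A) {y : Y} (hy : y ∈ A) :
    ∀ x ∈ A, r x y → x ∉ closure {z | z ∈ A ∧ ¬ r z y} := by
  intro x hx hxy
  rw [nmc]
  have h1 := h.openR y hy x hx hxy
  rw [eventually_nhdsWithin_iff] at h1
  filter_upwards [h1] with z hz hz'
  exact hz'.2 (hz hz'.1)

theorem Orders.split_right (h : Orders r A) {y : Y} (hy : y ∈ A)
    (hiso : ∀ᶠ z in 𝓝 y, z ∈ A → z = y) :
    ∀ x ∈ A, ¬ r x y → x ∉ closure {z | z ∈ A ∧ r z y} := by
  intro x hx hxy
  rw [nmc]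
  by_cases hxy' : x = y
  · subst hxy'
    filter_upwards [hiso] with z hz hz'
    have := hz hz'.1
    subst this
    exact hxy hz'.2
  · have hyx : r y x := (h.total x hx y hy hxy').resolve_left hxy
    have h1 := h.openL y hy x hx hyx
    rw [eventually_nhdsWithin_iff] at h1
    filter_upwards [h1] with z hz hz'
    exact h.asymm hy hz'.1 (hz hz'.1) hz'.2

theorem Orders.restrict_lt (h : Orders r A) {y : Y} (hy : y ∈ A) :
    Orders r {z | z ∈ A ∧ r z y} :=
  h.restrict (fun _ hz => hz.1) fun _ _ b hb c hc _ hbc => ⟨hb, h.trans b hb c hc.1 y hy hbc hc.2⟩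

theorem Orders.restrict_nlt (h : Orders r A) {y : Y} (hy : y ∈ A) :
    Orders r {z | z ∈ A ∧ ¬ r z y} :=
  h.restrict (fun _ hz => hz.1) fun a ha b hb _ _ hab _ =>
    ⟨hb, fun hby => ha.2 (h.trans a ha.1 b hb y hy hab hby)⟩

theorem split_union (r : Y → Y → Prop) (A : Set Y) (y : Y) :
    {z | z ∈ A ∧ r z y} ∪ {z | z ∈ A ∧ ¬ r z y} = A := by
  ext z
  simp only [Set.mem_union, Set.mem_ofPred_eq]
  tauto

/-- A nonempty orderable scattered set has an order with a first point. -/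
theorem Orders.exists_min (hsc : Scat Y) (h : Orders r A) (hne : A.Nonempty) :
    ∃ n, PP A n := by
  by_cases hmin : ∃ n ∈ A, ∀ y ∈ A, y ≠ n → r n y
  · obtain ⟨n, hn, hn'⟩ := hmin
    exact ⟨n, hn, r, h, hn'⟩
  by_cases hmax : ∃ n ∈ A, ∀ y ∈ A, y ≠ n → r y n
  · obtain ⟨n, hn, hn'⟩ := hmax
    exact ⟨n, hn, _, h.rev, hn'⟩
  push Not at hmin hmax
  obtain ⟨b, hb, hiso⟩ := hsc A hne
  have hL := h.restrict_lt hb
  have hR := h.restrict_nlt hb
  have hmin' : ∀ n ∈ A, ∃ y ∈ A, r y n := by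
    intro n hn
    obtain ⟨y, hy, hyn, h1⟩ := hmin n hn
    exact ⟨y, hy, (h.total y hy n hn hyn).resolve_right h1⟩
  have hmax' : ∀ n ∈ A, ∃ y ∈ A, r n y := by
    intro n hn
    obtain ⟨y, hy, hyn, h1⟩ := hmax n hn
    exact ⟨y, hy, (h.total y hy n hn hyn).resolve_left h1⟩
  have hcat := hR.cat_open hL
    (fun x hx => h.split_right hb hiso x hx.1 hx.2)
    (fun x hx => h.split_left hb x hx.1 hx.2)
    (by
      rintro m ⟨hm, hmb⟩
      obtain ⟨y, hy, hmy⟩ := hmax' m hm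
      exact ⟨y, ⟨hy, fun hyb => hmb (h.trans m hm y hy b hb hmy hyb)⟩, hmy⟩)
    (by
      rintro m ⟨hm, hmb⟩
      obtain ⟨y, hy, hmy⟩ := hmin' m hm
      exact ⟨y, ⟨hy, h.trans y hy m hm b hb hmy hmb⟩, hmy⟩)
  have hb' : b ∈ {z | z ∈ A ∧ ¬ r z b} := ⟨hb, h.irrefl b hb⟩
  have hdisj : Disjoint {z | z ∈ A ∧ ¬ r z b} {z | z ∈ A ∧ r z b} := by
    rw [Set.disjoint_left]
    rintro z ⟨_, hz⟩ ⟨_, hz'⟩
    exact hz hz'
  rw [Set.union_comm, split_union] at hcat
  refine ⟨b, hb, _, hcat, ?_⟩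
  intro y hy hyb
  by_cases hyb' : r y b
  · exact cat_cross hb' ⟨hy, hyb'⟩
  · rw [cat_left hdisj hb' ⟨hy, hyb'⟩]
    exact (h.total y hy b hb hyb).resolve_left hyb'

theorem PO.exists_min (hsc : Scat Y) (h : PO A) (hne : A.Nonempty) : ∃ n, PP A n := by
  obtain ⟨r, hr⟩ := h
  exact hr.exists_min hsc hne

/-- Adding a separated orderable set keeps a prescribed first point. -/
theorem PP.union (hsc : Scat Y) {a : Y} (hA : PP A a) (hB : PO B)
    (h1 : ∀ x ∈ A, x ∉ closure B) (h2 : ∀ x ∈ B, x ∉ closure A) : PP (A ∪ B) a := by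
  obtain ⟨ha, r, hr, hra⟩ := hA
  obtain ⟨s0, hs0⟩ := hB
  have hAB : Disjoint A B := Set.disjoint_left.2 fun x hx hx' => h1 x hx (subset_closure hx')
  rcases B.eq_empty_or_nonempty with hBe | hBne
  · subst hBe
    rw [Set.union_empty]
    exact ⟨ha, r, hr, hra⟩
  refine ⟨Or.inl ha, ?_⟩
  by_cases hmax : ∃ m ∈ A, ∀ y ∈ A, y ≠ m → r y m
  · obtain ⟨m, hm, hmmax⟩ := hmax
    obtain ⟨n, hn, s, hs, hsn⟩ := hs0.exists_min hsc hBne
    refine ⟨_, hr.cat_closed hs hm hmmax hn hsn h1 h2, ?_⟩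
    rintro y (hy | hy) hya
    · exact (cat_left hAB ha hy).2 (hra y hy hya)
    · exact cat_cross ha hy
  have hmax' : ∀ n ∈ A, ∃ y ∈ A, r n y := by
    push Not at hmax
    intro n hn
    obtain ⟨y, hy, hyn, h3⟩ := hmax n hn
    exact ⟨y, hy, (hr.total y hy n hn hyn).resolve_left h3⟩
  by_cases hnomin : ∃ s, Orders s B ∧ ∀ n ∈ B, ∃ y ∈ B, s y n
  · obtain ⟨s, hs, hsn⟩ := hnomin
    refine ⟨_, hr.cat_open hs h1 h2 hmax' hsn, ?_⟩
    rintro y (hy | hy) hya
    · exact (cat_left hAB ha hy).2 (hra y hy hya)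
    · exact cat_cross ha hy
  -- now every order on `B` has a first and a last point
  have hmm : ∀ s, Orders s B → ∃ n ∈ B, ∀ y ∈ B, y ≠ n → s n y := by
    intro s hs
    by_contra hcon
    push Not at hcon
    apply hnomin
    refine ⟨s, hs, fun n hn => ?_⟩
    obtain ⟨y, hy, hyn, h3⟩ := hcon n hn
    exact ⟨y, hy, (hs.total y hy n hn hyn).resolve_right h3⟩
  obtain ⟨n, hn, hnmin⟩ := hmm s0 hs0
  obtain ⟨N, hN, hNmax⟩ := hmm _ hs0.rev
  -- an isolated point of `A` different from `a`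
  obtain ⟨y0, hy0, hay0⟩ := hmax' a ha
  have hy0a : y0 ≠ a := by rintro rfl; exact hr.irrefl y0 hy0 hay0
  obtain ⟨y, ⟨hy, hya⟩, hyiso⟩ := hsc (A \ {a}) ⟨y0, hy0, hy0a⟩
  have hya' : y ≠ a := hya
  have hay : r a y := hra y hy hya'
  have hiso : ∀ᶠ z in 𝓝 y, z ∈ A → z = y := by
    have h3 := hr.openL a ha y hy hay
    rw [eventually_nhdsWithin_iff] at h3
    filter_upwards [hyiso, h3] with z hz hz' hzA
    refine hz ⟨hzA, ?_⟩
    rintro rfl
    exact hr.irrefl z hzA (hz' hzA)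
  have hL := hr.restrict_lt hy
  have hR := hr.restrict_nlt hy
  -- the last point of the left part
  have hm : ∃ m ∈ {z | z ∈ A ∧ r z y}, ∀ z ∈ {z | z ∈ A ∧ r z y}, z ≠ m → r z m := by
    have hU : {y} ∈ 𝓝[A] y := by
      rw [mem_nhdsWithin_iff_eventually]
      exact hiso
    rcases hr.baseL y hy {y} hU with h3 | ⟨m, hm, hmy, h3⟩
    · exact absurd (h3 a ha hay) (fun h => hya' h.symm)
    · refine ⟨m, ⟨hm, hmy⟩, ?_⟩
      rintro z ⟨hz, hzy⟩ hzm
      rcases hr.total z hz m hm hzm with h4 | h4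
      · exact h4
      · have := h3 z hz h4 hzy
        rw [Set.mem_singleton_iff] at this
        subst this
        exact absurd hzy (hr.irrefl z hz)
  obtain ⟨m, hm, hmmax⟩ := hm
  have hsub1 : {z | z ∈ A ∧ r z y} ⊆ A := fun z hz => hz.1
  have hsub2 : {z | z ∈ A ∧ ¬ r z y} ⊆ A := fun z hz => hz.1
  have ht1 := hL.cat_closed hs0 hm hmmax hn hnmin (fun x hx => h1 x hx.1)
    (fun x hx hx' => h2 x hx (closure_mono hsub1 hx'))
  have hdisj1 : Disjoint {z | z ∈ A ∧ r z y} B := hAB.mono_left hsub1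
  have hdisj : Disjoint ({z | z ∈ A ∧ r z y} ∪ B) {z | z ∈ A ∧ ¬ r z y} := by
    rw [Set.disjoint_left]
    rintro z (hz | hz) hz'
    · exact hz'.2 hz.2
    · exact Set.disjoint_left.1 hAB hz'.1 hz
  have ht2 := ht1.cat_closed hR (m := N) (p := y) (Or.inr hN)
    (by
      rintro z (hz | hz) hzN
      · exact cat_cross hz hN
      · exact (cat_right hdisj1 hz hN).2 (hNmax z hz hzN))
    ⟨hy, hr.irrefl y hy⟩
    (by
      rintro z ⟨hz, hzy⟩ hzy'
      exact (hr.total z hz y hy hzy').resolve_left hzy)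
    (by
      rintro x (hx | hx)
      · exact hr.split_left hy x hx.1 hx.2
      · intro hx'
        exact h2 x hx (closure_mono hsub2 hx'))
    (by
      rintro x ⟨hx, hxy⟩
      rw [closure_union]
      rintro (hx' | hx')
      · exact hr.split_right hy hiso x hx hxy hx'
      · exact h1 x hx hx')
  have hun : {z | z ∈ A ∧ r z y} ∪ B ∪ {z | z ∈ A ∧ ¬ r z y} = A ∪ B := by
    rw [Set.union_right_comm, split_union]
  rw [hun] at ht2
  refine ⟨_, ht2, ?_⟩
  have haL : a ∈ {z | z ∈ A ∧ r z y} := ⟨ha, hay⟩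
  rintro z hz hza
  by_cases hz1 : z ∈ A ∧ ¬ r z y
  · exact cat_cross (Or.inl haL) hz1
  · have hz2 : z ∈ {z | z ∈ A ∧ r z y} ∪ B := by
      rcases hz with hz | hz
      · by_cases hzy : r z y
        · exact Or.inl ⟨hz, hzy⟩
        · exact absurd ⟨hz, hzy⟩ hz1
      · exact Or.inr hz
    rw [cat_left hdisj (Or.inl haL) hz2]
    rcases hz2 with hz2 | hz2
    · rw [cat_left hdisj1 haL hz2]
      exact hra z hz2.1 hza
    · exact cat_cross haL hz2

/-- The union of two separated orderable sets is orderable. -/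
theorem PO.union (hsc : Scat Y) (hA : PO A) (hB : PO B)
    (h1 : ∀ x ∈ A, x ∉ closure B) (h2 : ∀ x ∈ B, x ∉ closure A) : PO (A ∪ B) := by
  rcases A.eq_empty_or_nonempty with hAe | hAne
  · subst hAe
    rw [Set.empty_union]
    exact hB
  · obtain ⟨n, hn⟩ := hA.exists_min hsc hAne
    exact (hn.union hsc hB h1 h2).po

/-- Glueing two sets at a common end point. -/
theorem PO.glue {y : Y} (hA : PP A y) (hB : PP B y)
    (h1 : ∀ x ∈ A, x ≠ y → x ∉ closure B) (h2 : ∀ x ∈ B, x ≠ y → x ∉ closure A) :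
    PO (A ∪ B) := by
  obtain ⟨hyA, r0, hr0, hr0y⟩ := hA
  by_cases hAe : (A \ {y}).Nonempty
  swap
  · have hAB : A ∪ B = B := by
      rw [Set.union_eq_right]
      intro z hz
      by_cases hzy : z = y
      · rw [hzy]; exact hB.1
      · exact absurd ⟨z, hz, hzy⟩ hAe
    rw [hAB]
    exact hB.po
  obtain ⟨hyB, s, hs, hsy⟩ := hB
  -- `r` has last point `y`
  have hr := hr0.rev
  have hA' : Orders (fun x y => r0 y x) (A \ {y}) := by
    refine hr.restrict Set.sdiff_subset ?_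
    rintro a ⟨ha, hay⟩ b hb c ⟨hc, hcy⟩ hab hbc
    refine ⟨hb, ?_⟩
    rintro rfl
    exact hr0.asymm hc hb hbc (hr0y c hc hcy)
  have hBc : ∀ x ∈ A \ {y}, x ∉ closure B := fun x hx => h1 x hx.1 hx.2
  have hcat := hA'.cat_point hs hyB hsy hBc
    (fun x hx hxy hx' => h2 x hx hxy (closure_mono Set.sdiff_subset hx'))
    (by
      rintro a ⟨ha, hay⟩
      exact (hr0.openR a ha y hyA (hr0y a ha hay)).filter_mono (nhdsWithin_mono y Set.sdiff_subset))
    (by
      intro U hU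
      have hU' : U ∪ {y} ∈ 𝓝[A] y := by
        rw [mem_nhdsWithin_iff_eventually] at hU ⊢
        filter_upwards [hU] with z hz hzA
        by_cases hzy : z = y
        · exact Or.inr hzy
        · exact Or.inl (hz ⟨hzA, hzy⟩)
      rcases hr0.baseR y hyA _ hU' with h3 | ⟨a, ha, hya, h3⟩
      · obtain ⟨a, ha⟩ := hAe
        exact ⟨a, ha, fun z hz _ => (h3 z hz.1 (hr0y z hz.1 hz.2)).resolve_right hz.2⟩
      · refine ⟨a, ⟨ha, ?_⟩, fun z hz hza =>
          (h3 z hz.1 (hr0y z hz.1 hz.2) hza).resolve_right hz.2⟩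
        rintro rfl
        exact hr0.irrefl a ha hya)
  have hun : A \ {y} ∪ B = A ∪ B := by
    ext z
    simp only [Set.mem_union, Set.mem_diff, Set.mem_singleton_iff]
    constructor
    · rintro (h | h)
      · exact Or.inl h.1
      · exact Or.inr h
    · rintro (h | h)
      · by_cases hzy : z = y
        · exact Or.inr (hzy ▸ hyB)
        · exact Or.inl ⟨h, hzy⟩
      · exact Or.inr h
  rw [hun] at hcat
  exact ⟨_, hcat⟩

end

end Pool.Agent.Helper79.Galvin
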