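import Pool.Agent.Helper79.GalvinSum

/-!
# The Zorn lemma argument
-/

set_option autoImplicit false

open Set Filter Topology

namespace Pool.Agent.Helper79.Galvin

variable {Y : Type*} [TopologicalSpace Y]

/-- `S` is relatively closed in `A`. -/
def RClosed (A S : Set Y) : Prop := ∀ x ∈ A, x ∉ S → x ∉ closure S

/-- `S` is relatively open in `A`. -/
def ROpen (A S : Set Y) : Prop := ∀ x ∈ S, x ∉ closure (A \ S)

/-- End coherence of an order on a stage `S`. -/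
def Coh (A : Set Y) (𝓢 : Set (Set Y)) (r : Y → Y → Prop) (S : Set Y) : Prop :=
  ∀ b ∈ S, ∃ S' ∈ 𝓢, b ∈ S' ∧ S' ⊆ S ∧ RClosed A S' ∧ ∀ x ∈ S', ∀ y ∈ S, r y x → y ∈ S'

theorem ext_limit {A : Set Y} {𝓢 : Set (Set Y)} {r : Y → Y → Prop} {S : Set Y}
    (hr : Orders r S) (hcoh : Coh A 𝓢 r S) {x : Y} (hxA : x ∈ A) (hxS : x ∉ S)
    (hxcl : x ∈ closure S)
    (hb : ∀ U ∈ 𝓝[S] x, ∃ b ∈ S, ∀ S' ∈ 𝓢, b ∈ S' → ∀ y ∈ S, y ∉ S' → y ∈ U) :
    (∀ a ∈ S, ∀ᶠ y in 𝓝[S] x, r a y) ∧ (∀ U ∈ 𝓝[S] x, ∃ a ∈ S, ∀ y ∈ S, r a y → y ∈ U) := by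
  constructor
  · intro a ha
    obtain ⟨S', _, haS', hS'S, hcl, hini⟩ := hcoh a ha
    have h1 := hcl x hxA (fun h => hxS (hS'S h))
    rw [nmc] at h1
    rw [eventually_nhdsWithin_iff]
    filter_upwards [h1] with z hz hzS
    have haz : a ≠ z := by rintro rfl; exact hz haS'
    rcases hr.total a ha z hzS haz with h | h
    · exact h
    · exact absurd (hini a haS' z hzS h) hz
  · intro U hU
    obtain ⟨b, hbS, hb'⟩ := hb U hU
    obtain ⟨S', hS', hbS', hS'S, hcl, hini⟩ := hcoh b hbS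
    have h1 := hcl x hxA (fun h => hxS (hS'S h))
    have h2 : ∃ a ∈ S, a ∉ S' := by
      by_contra hcon
      push Not at hcon
      exact h1 (closure_mono hcon hxcl)
    obtain ⟨a, haS, haS'⟩ := h2
    refine ⟨a, haS, fun y hy hay => hb' S' hS' hbS' y hy fun hyS' => haS' ?_⟩
    exact hini y hyS' a haS hay

/-- **The Zorn lemma argument.** -/
theorem az (hsc : Scat Y) (A C : Set Y) (𝓢 : Set (Set Y))
    (hch : ∀ c ⊆ 𝓢, IsChain (· ⊆ ·) c → ⋃₀ c ∈ 𝓢) (hsub : ∀ S ∈ 𝓢, S ⊆ C) (hCA : C ⊆ A)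
    (hopen : ∀ S ∈ 𝓢, ROpen A S)
    (hext : ∀ S ∈ 𝓢, S ≠ C → ∃ T : Set Y, T.Nonempty ∧ T ⊆ C \ S ∧ S ∪ T ∈ 𝓢 ∧
      RClosed A (S ∪ T) ∧ ((RClosed A S ∧ PO T) ∨ ∃ x, PP T x ∧ x ∈ closure S ∧
        (∀ z ∈ T, z ≠ x → z ∉ closure S) ∧
        ∀ U ∈ 𝓝[S] x, ∃ b ∈ S, ∀ S' ∈ 𝓢, b ∈ S' → ∀ y ∈ S, y ∉ S' → y ∈ U)) :
    (∃ r, Orders r C ∧ Coh A 𝓢 r C) ∨
    ∃ S ∈ 𝓢, S ≠ C ∧ S.Nonempty ∧ RClosed A S ∧ (∃ r, Orders r S ∧ ∀ m ∈ S, ∃ y ∈ S, r m y) ∧
      ∀ T : Set Y, T.Nonempty → T ⊆ C \ S → S ∪ T ∈ 𝓢 → RClosed A (S ∪ T) →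
        ∀ s, Orders s T → ∃ n ∈ T, ∀ y ∈ T, y ≠ n → s n y := by
  classical
  let α := {p : Set Y × (Y → Y → Prop) // p.1 ∈ 𝓢 ∧ Orders p.2 p.1 ∧ Coh A 𝓢 p.2 p.1}
  let R : α → α → Prop := fun p q => p.1.1 ⊆ q.1.1 ∧
    (∀ x ∈ p.1.1, ∀ y ∈ p.1.1, (p.1.2 x y ↔ q.1.2 x y)) ∧
    (∀ x ∈ p.1.1, ∀ y ∈ q.1.1, y ∉ p.1.1 → q.1.2 x y)
  have hRrefl : ∀ p : α, R p p := fun p =>
    ⟨Set.Subset.rfl, fun _ _ _ _ => Iff.rfl, fun _ _ y hy hy' => absurd hy hy'⟩
  have hRtrans : ∀ {p q w : α}, R p q → R q w → R p w := by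
    intro p q w hpq hqw
    refine ⟨hpq.1.trans hqw.1, fun x hx y hy => (hpq.2.1 x hx y hy).trans
      (hqw.2.1 x (hpq.1 hx) y (hpq.1 hy)), fun x hx y hy hyp => ?_⟩
    by_cases hyq : y ∈ q.1.1
    · exact (hqw.2.1 x (hpq.1 hx) y hyq).1 (hpq.2.2 x hx y hyq hyp)
    · exact hqw.2.2 x (hpq.1 hx) y hy hyq
  have hbdd : ∀ c : Set α, IsChain R c → ∃ ub, ∀ a ∈ c, R a ub := by
    intro c hc
    have k1 : ∀ p ∈ c, ∀ q ∈ c, R p q ∨ R q p := by
      intro p hp q hq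
      by_cases hpq : p = q
      · subst hpq; exact Or.inl (hRrefl p)
      · exact hc hp hq hpq
    let Sinf : Set Y := ⋃₀ {S | ∃ p ∈ c, p.1.1 = S}
    let rinf : Y → Y → Prop := fun x y => ∃ p ∈ c, x ∈ p.1.1 ∧ y ∈ p.1.1 ∧ p.1.2 x y
    have hmem : ∀ x, x ∈ Sinf ↔ ∃ p ∈ c, x ∈ p.1.1 := by
      intro x
      constructor
      · rintro ⟨_, ⟨p, hp, rfl⟩, hx⟩
        exact ⟨p, hp, hx⟩
      · rintro ⟨p, hp, hx⟩
        exact ⟨_, ⟨p, hp, rfl⟩, hx⟩
    have hsubinf : ∀ p ∈ c, p.1.1 ⊆ Sinf := fun p hp x hx => (hmem x).2 ⟨p, hp, hx⟩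
    have hSinf : Sinf ∈ 𝓢 := by
      apply hch
      · rintro _ ⟨p, _, rfl⟩
        exact p.2.1
      · rintro _ ⟨p, hp, rfl⟩ _ ⟨q, hq, rfl⟩ _
        rcases k1 p hp q hq with h | h
        · exact Or.inl h.1
        · exact Or.inr h.1
    have k2 : ∀ p ∈ c, ∀ x ∈ p.1.1, ∀ y ∈ p.1.1, (rinf x y ↔ p.1.2 x y) := by
      intro p hp x hx y hy
      constructor
      · rintro ⟨q, hq, hxq, hyq, hxy⟩
        rcases k1 p hp q hq with h | h
        · exact (h.2.1 x hx y hy).2 hxy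
        · exact (h.2.1 x hxq y hyq).1 hxy
      · intro hxy
        exact ⟨p, hp, hx, hy, hxy⟩
    have k3 : ∀ p ∈ c, ∀ x ∈ p.1.1, ∀ y ∈ Sinf, y ∉ p.1.1 → rinf x y := by
      intro p hp x hx y hy hyp
      obtain ⟨q, hq, hyq⟩ := (hmem y).1 hy
      rcases k1 p hp q hq with h | h
      · exact ⟨q, hq, h.1 hx, hyq, h.2.2 x hx y hyq hyp⟩
      · exact absurd (h.1 hyq) hyp
    have k4 : ∀ x ∈ Sinf, ∀ y ∈ Sinf, ∃ p ∈ c, x ∈ p.1.1 ∧ y ∈ p.1.1 := by
      intro x hx y hy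
      obtain ⟨p, hp, hxp⟩ := (hmem x).1 hx
      obtain ⟨q, hq, hyq⟩ := (hmem y).1 hy
      rcases k1 p hp q hq with h | h
      · exact ⟨q, hq, h.1 hxp, hyq⟩
      · exact ⟨p, hp, hxp, h.1 hyq⟩
    have k5 : ∀ p ∈ c, ∀ x ∈ p.1.1, 𝓝[Sinf] x = 𝓝[p.1.1] x := by
      intro p hp x hx
      have h1 : x ∉ closure (Sinf \ p.1.1) := by
        intro h
        refine hopen p.1.1 p.2.1 x hx (closure_mono ?_ h)
        exact Set.sdiff_subset_sdiff_left ((hsub _ hSinf).trans hCA)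
      have h2 : p.1.1 ∪ (Sinf \ p.1.1) = Sinf := Set.union_sdiff_cancel (hsubinf p hp)
      have h3 := nhdsWithin_union_left (A := p.1.1) h1
      rwa [h2] at h3
    have kasymm : ∀ x ∈ Sinf, ∀ y ∈ Sinf, rinf x y → ¬ rinf y x := by
      intro x hx y hy hxy hyx
      obtain ⟨p, hp, hxp, hyp⟩ := k4 x hx y hy
      exact p.2.2.1.asymm hxp hyp ((k2 p hp x hxp y hyp).1 hxy) ((k2 p hp y hyp x hxp).1 hyx)
    have kini : ∀ p ∈ c, ∀ x ∈ p.1.1, ∀ y ∈ Sinf, rinf y x → y ∈ p.1.1 := by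
      intro p hp x hx y hy hyx
      by_contra hyp
      exact kasymm x (hsubinf p hp hx) y hy (k3 p hp x hx y hy hyp) hyx
    have hOrd : Orders rinf Sinf := by
      refine ⟨?_, ?_, ?_, ?_, ?_, ?_, ?_⟩
      · intro x hx hxx
        obtain ⟨p, hp, hxp⟩ := (hmem x).1 hx
        exact p.2.2.1.irrefl x hxp ((k2 p hp x hxp x hxp).1 hxx)
      · intro x hx y hy z hz hxy hyz
        obtain ⟨p, hp, hzp⟩ := (hmem z).1 hz
        have hyp := kini p hp z hzp y hy hyz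
        have hxp := kini p hp y hyp x hx hxy
        exact (k2 p hp x hxp z hzp).2 (p.2.2.1.trans x hxp y hyp z hzp
          ((k2 p hp x hxp y hyp).1 hxy) ((k2 p hp y hyp z hzp).1 hyz))
      · intro x hx y hy hxy
        obtain ⟨p, hp, hxp, hyp⟩ := k4 x hx y hy
        rw [k2 p hp x hxp y hyp, k2 p hp y hyp x hxp]
        exact p.2.2.1.total x hxp y hyp hxy
      · intro a ha x hx hax
        obtain ⟨p, hp, hap, hxp⟩ := k4 a ha x hx
        rw [k5 p hp x hxp]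
        filter_upwards [p.2.2.1.openL a hap x hxp ((k2 p hp a hap x hxp).1 hax),
          self_mem_nhdsWithin] with y hy hyp
        exact (k2 p hp a hap y hyp).2 hy
      · intro a ha x hx hax
        obtain ⟨p, hp, hap, hxp⟩ := k4 a ha x hx
        rw [k5 p hp x hxp]
        filter_upwards [p.2.2.1.openR a hap x hxp ((k2 p hp x hxp a hap).1 hax),
          self_mem_nhdsWithin] with y hy hyp
        exact (k2 p hp y hyp a hap).2 hy
      · intro x hx U hU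
        obtain ⟨p, hp, hxp⟩ := (hmem x).1 hx
        rw [k5 p hp x hxp] at hU
        rcases p.2.2.1.baseL x hxp U hU with h1 | ⟨a, ha, hax, h1⟩
        · refine Or.inl fun y hy hyx => ?_
          have hyp := kini p hp x hxp y hy hyx
          exact h1 y hyp ((k2 p hp y hyp x hxp).1 hyx)
        · refine Or.inr ⟨a, hsubinf p hp ha, (k2 p hp a ha x hxp).2 hax, fun y hy hay hyx => ?_⟩
          have hyp := kini p hp x hxp y hy hyx
          exact h1 y hyp ((k2 p hp a ha y hyp).1 hay) ((k2 p hp y hyp x hxp).1 hyx)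
      · intro x hx U hU
        obtain ⟨p, hp, hxp⟩ := (hmem x).1 hx
        by_cases hq : ∃ q ∈ c, ¬ q.1.1 ⊆ p.1.1
        · obtain ⟨q, hq, hqp⟩ := hq
          have hpq : R p q := by
            rcases k1 p hp q hq with h | h
            · exact h
            · exact absurd h.1 hqp
          have hxq := hpq.1 hxp
          have hU' : U ∩ p.1.1 ∈ 𝓝[q.1.1] x := by
            rw [← k5 q hq x hxq]
            refine Filter.inter_mem hU ?_
            rw [k5 p hp x hxp]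
            exact self_mem_nhdsWithin
          rcases q.2.2.1.baseR x hxq _ hU' with h1 | ⟨a, ha, hax, h1⟩
          · exfalso
            obtain ⟨w, hwq, hwp⟩ := Set.not_subset.1 hqp
            exact hwp (h1 w hwq (hpq.2.2 x hxp w hwq hwp)).2
          · refine Or.inr ⟨a, hsubinf q hq ha, (k2 q hq x hxq a ha).2 hax, fun y hy hxy hya => ?_⟩
            have hyq := kini q hq a ha y hy hya
            exact (h1 y hyq ((k2 q hq x hxq y hyq).1 hxy) ((k2 q hq y hyq a ha).1 hya)).1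
        · push Not at hq
          have hSp : Sinf = p.1.1 := by
            apply Set.Subset.antisymm _ (hsubinf p hp)
            intro z hz
            obtain ⟨q, hq', hzq⟩ := (hmem z).1 hz
            exact hq q hq' hzq
          rw [k5 p hp x hxp] at hU
          rcases p.2.2.1.baseR x hxp U hU with h1 | ⟨a, ha, hax, h1⟩
          · refine Or.inl fun y hy hyx => ?_
            have hyp : y ∈ p.1.1 := hSp ▸ hy
            exact h1 y hyp ((k2 p hp x hxp y hyp).1 hyx)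
          · refine Or.inr ⟨a, hsubinf p hp ha, (k2 p hp x hxp a ha).2 hax,
              fun y hy hay hyx => ?_⟩
            have hyp : y ∈ p.1.1 := hSp ▸ hy
            exact h1 y hyp ((k2 p hp x hxp y hyp).1 hay) ((k2 p hp y hyp a ha).1 hyx)
    have hCoh : Coh A 𝓢 rinf Sinf := by
      intro b hb
      obtain ⟨p, hp, hbp⟩ := (hmem b).1 hb
      obtain ⟨S', hS', hbS', hS'p, hcl, hini⟩ := p.2.2.2 b hbp
      refine ⟨S', hS', hbS', hS'p.trans (hsubinf p hp), hcl, fun x hx y hy hyx => ?_⟩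
      have hyp := kini p hp x (hS'p hx) y hy hyx
      exact hini x hx y hyp ((k2 p hp y hyp x (hS'p hx)).1 hyx)
    refine ⟨⟨(Sinf, rinf), hSinf, hOrd, hCoh⟩, fun p hp => ⟨hsubinf p hp, fun x hx y hy =>
      (k2 p hp x hx y hy).symm, fun x hx y hy hyp => k3 p hp x hx y hy hyp⟩⟩
  obtain ⟨⟨⟨S, r⟩, hS, hr, hcoh⟩, hmax⟩ : ∃ m : α, ∀ a, R m a → R a m :=
    exists_maximal_of_chains_bounded hbdd (fun h1 h2 => hRtrans h1 h2)
  dsimp only at hS hr hcoh
  by_cases hSC : S = C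
  · left
    subst hSC
    exact ⟨r, hr, hcoh⟩
  right
  -- extension by concatenation contradicts maximality
  have hstep : ∀ T : Set Y, T.Nonempty → T ⊆ C \ S → S ∪ T ∈ 𝓢 → RClosed A (S ∪ T) →
      ∀ s, ¬ Orders (cat r S s T) (S ∪ T) := by
    intro T hTne hTC hST hcl s hord
    have hdisj : Disjoint S T := Set.disjoint_right.2 fun x hx => (hTC hx).2
    have hcoh' : Coh A 𝓢 (cat r S s T) (S ∪ T) := by
      rintro b (hb | hb)
      · obtain ⟨S', hS', hbS', hS'S, hcl', hini⟩ := hcoh b hb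
        refine ⟨S', hS', hbS', hS'S.trans Set.subset_union_left, hcl', ?_⟩
        rintro x hx y (hy | hy) hyx
        · exact hini x hx y hy ((cat_left hdisj hy (hS'S hx)).1 hyx)
        · exact absurd hyx (not_cat_cross hdisj hy (hS'S hx))
      · exact ⟨S ∪ T, hST, Or.inr hb, Set.Subset.rfl, hcl, fun _ _ y hy _ => hy⟩
    let q : α := ⟨(S ∪ T, cat r S s T), hST, hord, hcoh'⟩
    have hRq : R ⟨(S, r), hS, hr, hcoh⟩ q :=
      ⟨Set.subset_union_left, fun x hx y hy => (cat_left hdisj hx hy).symm,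
        fun x hx y hy hyS => cat_cross hx (hy.resolve_left hyS)⟩
    have h1 := hmax q hRq
    obtain ⟨x, hx⟩ := hTne
    exact (hTC hx).2 (h1.1 (Or.inr hx))
  obtain ⟨T, hTne, hTC, hST, hcl, hT⟩ := hext S hS hSC
  have hsepST : ∀ T : Set Y, T ⊆ C \ S → ∀ x ∈ S, x ∉ closure T := by
    intro T hTC x hx hx'
    have hTA : T ⊆ A \ S := fun z hz => ⟨hCA (hTC hz).1, (hTC hz).2⟩
    exact hopen S hS x hx (closure_mono hTA hx')
  rcases hT with ⟨hScl, hPO⟩ | ⟨x, ⟨hxT, s, hs, hsx⟩, hxcl, hother, hbase⟩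
  swap
  · exfalso
    have hx := hTC hxT
    obtain ⟨h3, h4⟩ := ext_limit hr hcoh (hCA hx.1) hx.2 hxcl hbase
    exact hstep T hTne hTC hST hcl s
      (hr.cat_point hs hxT hsx (hsepST T hTC) hother h3 h4)
  have hsepTS : ∀ T : Set Y, T ⊆ C \ S → ∀ x ∈ T, x ∉ closure S :=
    fun T hTC x hx => hScl x (hCA (hTC hx).1) (hTC hx).2
  obtain ⟨n, hn, s, hs, hsn⟩ := hPO.exists_min hsc hTne
  have hSne : S.Nonempty := by
    rw [Set.nonempty_iff_ne_empty]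
    intro hSe
    subst hSe
    have h5 : Orders (cat r ∅ s T) T :=
      hs.congr fun x hx y hy => (cat_right (Set.empty_disjoint T) hx hy).symm
    refine hstep T hTne hTC hST hcl s ?_
    rwa [Set.empty_union]
  have hnomax : ∀ m ∈ S, ∃ y ∈ S, r m y := by
    by_contra hcon
    push Not at hcon
    obtain ⟨m, hm, hm'⟩ := hcon
    exact hstep T hTne hTC hST hcl s (hr.cat_closed hs hm
      (fun y hy hym => (hr.total y hy m hm hym).resolve_right (hm' y hy)) hn hsn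
      (hsepST T hTC) (hsepTS T hTC))
  refine ⟨S, hS, hSC, hSne, hScl, ⟨r, hr, hnomax⟩, ?_⟩
  intro T' hT'ne hT'C hST' hcl' s' hs'
  by_contra hcon
  push Not at hcon
  refine hstep T' hT'ne hT'C hST' hcl' s' (hr.cat_open hs' (hsepST T' hT'C) (hsepTS T' hT'C)
    hnomax ?_)
  intro n' hn'
  obtain ⟨y, hy, hyn, h1⟩ := hcon n' hn'
  exact ⟨y, hy, (hs'.total y hy n' hn' hyn).resolve_right h1⟩

end Pool.Agent.Helper79.Galvin
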